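import Pool.Agent.H320R2.PDDefs
import Pool.Agent.H320R2.Hc

/-! Task 3 (ENT) of the positive density blueprint: entropy bound for the sum of the
nonuniformities of the digits. -/

set_option autoImplicit false

namespace Pool.Agent.H320R2.PD

open Finset

/-- `x log x ≥ x - 1 + (x-1)^2/6` on `[0,3]` -/
theorem ent_tangent {x : ℝ} (h0 : 0 ≤ x) (h3 : x ≤ 3) :
    x - 1 + (x - 1) ^ 2 / 6 ≤ x * Real.log x := by
  rcases h0.eq_or_lt with h | h
  · subst h; norm_num
  rcases le_or_gt 1 x with h1 | h1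
  · have h2 := Real.le_log_one_add_of_nonneg (x := x - 1) (by linarith)
    rw [show 1 + (x - 1) = x by ring, show x - 1 + 2 = x + 1 by ring] at h2
    have h4 : x * (2 * (x - 1) / (x + 1)) ≤ x * Real.log x := mul_le_mul_of_nonneg_left h2 h0
    have h5 : x - 1 + (x - 1) ^ 2 / 6 ≤ x * (2 * (x - 1) / (x + 1)) := by
      have h6 : x * (2 * (x - 1) / (x + 1)) - (x - 1) = (x - 1) ^ 2 / (x + 1) := by
        have : x + 1 ≠ 0 := by linarith
        field_simp
        ring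
      have h7 : (x - 1) ^ 2 / 6 ≤ (x - 1) ^ 2 / (x + 1) :=
        div_le_div_of_nonneg_left (sq_nonneg _) (by linarith) (by linarith)
      linarith
    linarith
  · set y := Real.sqrt x with hy
    have hy0 : 0 < y := Real.sqrt_pos.mpr h
    have hyx : y ^ 2 = x := Real.sq_sqrt h0
    have hy1 : y < 1 := by nlinarith
    have h2 : 1 - y⁻¹ ≤ Real.log y := Real.one_sub_inv_le_log_of_pos hy0
    have h4 : Real.log x = 2 * Real.log y := by
      rw [← hyx, Real.log_pow]; norm_num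
    rw [h4]
    have h5 : x * (2 * (1 - y⁻¹)) ≤ x * (2 * Real.log y) := by
      apply mul_le_mul_of_nonneg_left _ h0; linarith
    have h6 : x * (2 * (1 - y⁻¹)) = 2 * (x - y) := by
      rw [← hyx]; field_simp
    have h7 : (x - 1) ^ 2 = (1 - y) ^ 2 * (1 + y) ^ 2 := by rw [← hyx]; ring
    have h8 : (x - 1) ^ 2 ≤ 4 * (1 - y) ^ 2 := by
      rw [h7]
      have : (1 + y) ^ 2 ≤ 4 := by nlinarith
      nlinarith [sq_nonneg (1 - y)]
    nlinarith [sq_nonneg (1 - y)]

theorem ent_tangent3 {p : ℝ} (h0 : 0 ≤ p) (h1 : p ≤ 1) :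
    Real.negMulLog p ≤ (Real.log 3 - 1) * p + 1 / 3 - (p - 1 / 3) ^ 2 / 2 := by
  have h := ent_tangent (x := 3 * p) (by linarith) (by linarith)
  rcases h0.eq_or_lt with h2 | h2
  · subst h2; simp; norm_num
  rw [Real.log_mul (by norm_num) h2.ne'] at h
  simp only [Real.negMulLog]
  nlinarith

theorem F3_entropy {a b c : ℝ} (ha : 0 ≤ a) (hb : 0 ≤ b) (hc : 0 ≤ c) :
    F3 a b c ≤ 3 * ((a + b + c) * Real.log 3 - (Real.negMulLog a + Real.negMulLog b
      + Real.negMulLog c - Real.negMulLog (a + b + c))) := by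
  set S := a + b + c with hS
  rcases (by positivity : 0 ≤ S).eq_or_lt with h | h
  · have ha0 : a = 0 := by linarith
    have hb0 : b = 0 := by linarith
    have hc0 : c = 0 := by linarith
    rw [← h, ha0, hb0, hc0]
    simp [F3]
  · obtain ⟨p, hp⟩ : ∃ p, p = a / S := ⟨_, rfl⟩
    obtain ⟨q, hq⟩ : ∃ q, q = b / S := ⟨_, rfl⟩
    obtain ⟨r, hr⟩ : ∃ r, r = c / S := ⟨_, rfl⟩
    have ha' : a = S * p := by rw [hp]; field_simp
    have hb' : b = S * q := by rw [hq]; field_simp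
    have hc' : c = S * r := by rw [hr]; field_simp
    have hsum : p + q + r = 1 := by
      rw [hp, hq, hr, ← add_div, ← add_div, ← hS, div_self h.ne']
    have hp0 : 0 ≤ p := by rw [hp]; positivity
    have hq0 : 0 ≤ q := by rw [hq]; positivity
    have hr0 : 0 ≤ r := by rw [hr]; positivity
    have tp := ent_tangent3 hp0 (by linarith)
    have tq := ent_tangent3 hq0 (by linarith)
    have tr := ent_tangent3 hr0 (by linarith)
    have e1 : Real.negMulLog a + Real.negMulLog b + Real.negMulLog c - Real.negMulLog S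
        = S * (Real.negMulLog p + Real.negMulLog q + Real.negMulLog r) := by
      rw [ha', hb', hc', Real.negMulLog_mul, Real.negMulLog_mul, Real.negMulLog_mul]
      linear_combination (Real.negMulLog S) * hsum
    have e2 : F3 a b c = S * (p ^ 2 + q ^ 2 + r ^ 2 - p * q - q * r - r * p) := by
      unfold F3
      rw [← hS, ha', hb', hc']
      field_simp
    rw [e1, e2]
    have e3 : p ^ 2 + q ^ 2 + r ^ 2 - p * q - q * r - r * p ≤
        3 * (Real.log 3 - (Real.negMulLog p + Real.negMulLog q + Real.negMulLog r)) := by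
      have hr' : r = 1 - p - q := by linarith
      have e4 : Real.negMulLog p + Real.negMulLog q + Real.negMulLog r ≤
          (Real.log 3 - 1) * (p + q + r) + 1 - ((p - 1 / 3) ^ 2 + (q - 1 / 3) ^ 2
            + (r - 1 / 3) ^ 2) / 2 := by linarith
      rw [hsum] at e4
      have e5 : p ^ 2 + q ^ 2 + r ^ 2 - p * q - q * r - r * p =
          3 / 2 * ((p - 1 / 3) ^ 2 + (q - 1 / 3) ^ 2 + (r - 1 / 3) ^ 2) := by
        rw [hr']; ring
      rw [e5]; linarith
    have := mul_le_mul_of_nonneg_left e3 h.le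
    linarith

/-- exactly one of the three digits -/
theorem ent_cnt_split {ι : Type*} (s : Finset ι) (wt : ι → ℝ) (v : ι → ℤ) (j : ℕ) (c : ℤ) :
    cnt s wt v j c = cnt s wt v (j + 1) c + cnt s wt v (j + 1) (c + 3 ^ j)
      + cnt s wt v (j + 1) (c + 2 * 3 ^ j) := by
  classical
  unfold cnt
  rw [← sum_add_distrib, ← sum_add_distrib]
  refine sum_congr rfl fun i _ => ?_
  have h3 : (0 : ℤ) < 3 ^ j := by positivity
  have hdvd : ∀ k d : ℤ, (3 : ℤ) ^ (j + 1) ∣ 3 ^ j * k - d * 3 ^ j ↔ 3 ∣ k - d := by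
    intro k d
    rw [show 3 ^ j * k - d * 3 ^ j = 3 ^ j * (k - d) by ring, pow_succ]
    exact mul_dvd_mul_iff_left h3.ne'
  by_cases h : (3 : ℤ) ^ j ∣ v i - c
  · obtain ⟨k, hk⟩ := h
    have e0 : (3 : ℤ) ^ (j + 1) ∣ v i - c ↔ 3 ∣ k := by
      have := hdvd k 0
      rw [zero_mul, sub_zero, sub_zero] at this
      rw [hk]; exact this
    have e1 : (3 : ℤ) ^ (j + 1) ∣ v i - (c + 3 ^ j) ↔ 3 ∣ k - 1 := by
      have := hdvd k 1
      rw [one_mul] at this
      rw [← this, ← hk]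
      ring_nf
    have e2 : (3 : ℤ) ^ (j + 1) ∣ v i - (c + 2 * 3 ^ j) ↔ 3 ∣ k - 2 := by
      rw [← hdvd k 2, ← hk]
      ring_nf
    have hc : (3 : ℤ) ^ j ∣ v i - c := ⟨k, hk⟩
    simp only [hc, e0, e1, e2, if_true]
    have : k % 3 = 0 ∨ k % 3 = 1 ∨ k % 3 = 2 := by omega
    rcases this with h | h | h
    · have h0 : (3 : ℤ) ∣ k := by omega
      have h1 : ¬ (3 : ℤ) ∣ k - 1 := by omega
      have h2 : ¬ (3 : ℤ) ∣ k - 2 := by omega
      simp [h0, h1, h2]
    · have h0 : ¬ (3 : ℤ) ∣ k := by omega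
      have h1 : (3 : ℤ) ∣ k - 1 := by omega
      have h2 : ¬ (3 : ℤ) ∣ k - 2 := by omega
      simp [h0, h1, h2]
    · have h0 : ¬ (3 : ℤ) ∣ k := by omega
      have h1 : ¬ (3 : ℤ) ∣ k - 1 := by omega
      have h2 : (3 : ℤ) ∣ k - 2 := by omega
      simp [h0, h1, h2]
  · have hd : (3 : ℤ) ^ j ∣ 3 ^ (j + 1) := pow_dvd_pow 3 (by omega)
    have h0 : ¬ (3 : ℤ) ^ (j + 1) ∣ v i - c := fun h' => h (hd.trans h')
    have h1 : ¬ (3 : ℤ) ^ (j + 1) ∣ v i - (c + 3 ^ j) := by
      intro h'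
      apply h
      have := dvd_add (hd.trans h') (dvd_refl ((3 : ℤ) ^ j))
      rwa [show v i - (c + 3 ^ j) + 3 ^ j = v i - c by ring] at this
    have h2 : ¬ (3 : ℤ) ^ (j + 1) ∣ v i - (c + 2 * 3 ^ j) := by
      intro h'
      apply h
      have := dvd_add (hd.trans h') (dvd_mul_left ((3 : ℤ) ^ j) 2)
      rwa [show v i - (c + 2 * 3 ^ j) + 2 * 3 ^ j = v i - c by ring] at this
    simp [h, h0, h1, h2]

theorem ent_cnt_nonneg {ι : Type*} {s : Finset ι} {wt : ι → ℝ} (v : ι → ℤ) (j : ℕ) (c : ℤ)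
    (h : ∀ i ∈ s, 0 ≤ wt i) : 0 ≤ cnt s wt v j c := by
  classical
  unfold cnt
  apply sum_nonneg
  intro i hi
  split_ifs
  · exact h i hi
  · exact le_refl _

theorem ent_range_split (g : ℤ → ℝ) (j : ℕ) :
    ∑ c ∈ range (3 ^ (j + 1)), g (c : ℤ) =
      ∑ c ∈ range (3 ^ j), (g (c : ℤ) + g ((c : ℤ) + 3 ^ j) + g ((c : ℤ) + 2 * 3 ^ j)) := by
  rw [show 3 ^ (j + 1) = 3 ^ j + 3 ^ j + 3 ^ j by ring, sum_range_add, sum_range_add,
    sum_add_distrib, sum_add_distrib]
  congr 1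
  · congr 1
    refine sum_congr rfl fun c _ => ?_
    push_cast
    congr 1; ring
  · refine sum_congr rfl fun c _ => ?_
    push_cast
    congr 1; ring

theorem ent_cnt_sum {ι : Type*} (s : Finset ι) (wt : ι → ℝ) (v : ι → ℤ) (j : ℕ) :
    ∑ c ∈ range (3 ^ j), cnt s wt v j (c : ℤ) = ∑ i ∈ s, wt i := by
  induction j with
  | zero => simp [cnt]
  | succ j ih =>
    rw [ent_range_split (fun c => cnt s wt v (j + 1) c) j, ← ih]
    refine sum_congr rfl fun c _ => ?_
    rw [ent_cnt_split s wt v j]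

theorem Gam_entropy {ι : Type*} {s : Finset ι} {wt : ι → ℝ} (v : ι → ℤ) (M : ℕ)
    (h : ∀ i ∈ s, 0 ≤ wt i) :
    ∑ j ∈ range M, Gam s wt v j ≤ 3 * (M * Real.log 3 * ∑ i ∈ s, wt i
      - (∑ c ∈ range (3 ^ M), Real.negMulLog (cnt s wt v M (c : ℤ))
        - Real.negMulLog (∑ i ∈ s, wt i))) := by
  induction M with
  | zero => simp [cnt]
  | succ M ih =>
    rw [sum_range_succ]
    have h1 : Gam s wt v M ≤ 3 * (Real.log 3 * ∑ i ∈ s, wt i
        - (∑ c ∈ range (3 ^ (M + 1)), Real.negMulLog (cnt s wt v (M + 1) (c : ℤ))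
          - ∑ c ∈ range (3 ^ M), Real.negMulLog (cnt s wt v M (c : ℤ)))) := by
      rw [ent_range_split (fun c => Real.negMulLog (cnt s wt v (M + 1) c)) M,
        ← ent_cnt_sum s wt v M, mul_sum, ← sum_sub_distrib, ← sum_sub_distrib, mul_sum]
      unfold Gam
      apply sum_le_sum
      intro c _
      have h2 := F3_entropy (ent_cnt_nonneg v (M + 1) (c : ℤ) h)
        (ent_cnt_nonneg v (M + 1) ((c : ℤ) + 3 ^ M) h)
        (ent_cnt_nonneg v (M + 1) ((c : ℤ) + 2 * 3 ^ M) h)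
      rw [← ent_cnt_split s wt v M] at h2
      unfold Fib
      linarith
    push_cast
    linarith

/-- entropy from below: `s₁ ⊆ s` on which `v` separates mod `3^M` and the weight is constant -/
theorem ent_lower {ι : Type*} {s s₁ : Finset ι} {wt : ι → ℝ} (v : ι → ℤ) (M : ℕ)
    (h : ∀ i ∈ s, 0 ≤ wt i) (hs : s₁ ⊆ s) {p : ℝ} (hp : 0 < p) (hp1 : p ≤ 1)
    (hwt : ∀ i ∈ s₁, wt i = p)
    (hinj : ∀ i ∈ s₁, ∀ i' ∈ s₁, (3 : ℤ) ^ M ∣ v i - v i' → i = i') :
    (s₁.card * p) * Real.log (1 / p) - Real.negMulLog (s₁.card * p)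
      ≤ ∑ c ∈ range (3 ^ M), Real.negMulLog (cnt s wt v M (c : ℤ))
        - Real.negMulLog (∑ i ∈ s, wt i) := by
  classical
  have hsum1 : ∑ i ∈ s₁, wt i = s₁.card * p := by
    rw [sum_congr rfl hwt, sum_const, nsmul_eq_mul]
  have hval : ∀ c : ℤ, Real.negMulLog (cnt s₁ wt v M c) = cnt s₁ wt v M c * Real.log (1 / p) := by
    intro c
    by_cases hex : ∃ i ∈ s₁, (3 : ℤ) ^ M ∣ v i - c
    · obtain ⟨i, hi, hic⟩ := hex
      have hc : cnt s₁ wt v M c = p := by
        unfold cnt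
        rw [sum_eq_single i]
        · rw [if_pos hic, hwt i hi]
        · intro i' hi' hne
          rw [if_neg]
          intro hd
          apply hne
          apply hinj i' hi' i hi
          have := dvd_sub hd hic
          rwa [sub_sub_sub_cancel_right] at this
        · intro hni; exact absurd hi hni
      rw [hc, one_div, Real.log_inv]
      simp [Real.negMulLog]
    · push Not at hex
      have hc : cnt s₁ wt v M c = 0 := by
        unfold cnt
        apply sum_eq_zero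
        intro i hi
        rw [if_neg (hex i hi)]
      rw [hc]; simp
  have h1 : Hc (range (3 ^ M)) (fun c : ℕ => cnt s₁ wt v M (c : ℤ)) =
      (s₁.card * p) * Real.log (1 / p) - Real.negMulLog (s₁.card * p) := by
    unfold Hc
    rw [ent_cnt_sum, hsum1, ← hsum1, ← ent_cnt_sum s₁ wt v M, sum_mul]
    congr 1
    exact sum_congr rfl fun c _ => hval c
  have h2 : Hc (range (3 ^ M)) (fun c : ℕ => cnt s wt v M (c : ℤ)) =
      ∑ c ∈ range (3 ^ M), Real.negMulLog (cnt s wt v M (c : ℤ))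
        - Real.negMulLog (∑ i ∈ s, wt i) := by
    unfold Hc
    rw [ent_cnt_sum]
  have hsplit : ∀ c : ℕ, cnt s wt v M (c : ℤ) = cnt s₁ wt v M (c : ℤ)
      + cnt (s \ s₁) wt v M (c : ℤ) := by
    intro c
    unfold cnt
    rw [add_comm, sum_sdiff hs]
  have h3 : Hc (range (3 ^ M)) (fun c : ℕ => cnt s wt v M (c : ℤ)) =
      Hc (range (3 ^ M)) (fun c : ℕ => cnt s₁ wt v M (c : ℤ) + cnt (s \ s₁) wt v M (c : ℤ)) :=
    Hc_congr fun c _ => hsplit c
  have hn1 : ∀ c ∈ range (3 ^ M), 0 ≤ cnt s₁ wt v M (c : ℤ) := fun c _ =>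
    ent_cnt_nonneg v M c fun i hi => h i (hs hi)
  have hn2 : ∀ c ∈ range (3 ^ M), 0 ≤ cnt (s \ s₁) wt v M (c : ℤ) := fun c _ =>
    ent_cnt_nonneg v M c fun i hi => h i (mem_sdiff.mp hi).1
  rw [← h1, ← h2, h3]
  have h4 := Hc_add hn1 hn2
  have h5 := Hc_nonneg hn2
  linarith

end Pool.Agent.H320R2.PD
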