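import Pool.Agent.H320R2.PDDefs

/-! Task 1 (WORDS) of the positive density blueprint: words and their offsets. -/

set_option autoImplicit false

namespace Pool.Agent.H320R2.PD

open Finset

theorem mem_FW {A n : ℕ} {w : List ℕ} :
    w ∈ FW A n ↔ w.length = n ∧ ∀ e ∈ w, 1 ≤ e ∧ e ≤ A := by
  induction n generalizing w with
  | zero =>
    constructor
    · intro h
      simp only [FW, mem_singleton] at h
      subst h
      simp
    · rintro ⟨h, -⟩
      simp [FW, List.length_eq_zero_iff.mp h]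
  | succ n ih =>
    simp only [FW, mem_biUnion, mem_Icc, mem_image]
    constructor
    · rintro ⟨e, he, u, hu, rfl⟩
      rw [ih] at hu
      refine ⟨by simp [hu.1], ?_⟩
      intro e' he'
      rcases List.mem_cons.mp he' with rfl | h
      · exact he
      · exact hu.2 _ h
    · rintro ⟨hl, he⟩
      cases w with
      | nil => simp at hl
      | cons e u =>
        refine ⟨e, he e (by simp), u, ?_, rfl⟩
        rw [ih]
        exact ⟨by simpa using hl, fun e' he' => he e' (by simp [he'])⟩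

theorem sum_FW_succ {A n : ℕ} {M : Type*} [AddCommMonoid M] (f : List ℕ → M) :
    ∑ w ∈ FW A (n + 1), f w = ∑ e ∈ Icc 1 A, ∑ v ∈ FW A n, f (e :: v) := by
  rw [FW, sum_biUnion]
  · refine sum_congr rfl fun e _ => ?_
    rw [sum_image]
    intro a _ b _ h
    exact (List.cons.inj h).2
  · intro e _ e' _ hne
    simp only [Function.onFun]
    rw [disjoint_left]
    intro w hw hw'
    simp only [mem_image] at hw hw'
    obtain ⟨a, _, rfl⟩ := hw
    obtain ⟨b, _, h⟩ := hw'
    exact hne (List.cons.inj h).1.symm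

theorem sum_FW_zero {A : ℕ} {M : Type*} [AddCommMonoid M] (f : List ℕ → M) :
    ∑ w ∈ FW A 0, f w = f [] := by
  simp [FW]

theorem sum_FW_add {A m n : ℕ} {M : Type*} [AddCommMonoid M] (f : List ℕ → M) :
    ∑ w ∈ FW A (m + n), f w = ∑ u ∈ FW A m, ∑ v ∈ FW A n, f (u ++ v) := by
  induction m generalizing f with
  | zero => simp [FW]
  | succ m ih =>
    rw [Nat.add_right_comm, sum_FW_succ, sum_FW_succ]
    refine sum_congr rfl fun e _ => ?_
    rw [ih]
    rfl

/-- splitting off the last letter -/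
theorem sum_FW_snoc {A n : ℕ} {M : Type*} [AddCommMonoid M] (f : List ℕ → M) :
    ∑ w ∈ FW A (n + 1), f w = ∑ u ∈ FW A n, ∑ e ∈ Icc 1 A, f (u ++ [e]) := by
  rw [sum_FW_add]
  refine sum_congr rfl fun u _ => ?_
  rw [show (1 : ℕ) = 0 + 1 from rfl, sum_FW_succ]
  refine sum_congr rfl fun e _ => ?_
  rw [sum_FW_zero]

theorem Wo_append (u v : List ℕ) : Wo (u ++ v) = 2 ^ v.sum * Wo u + 3 ^ u.length * Wo v := by
  induction u with
  | nil => simp [Wo]
  | cons e u ih =>
    simp only [List.cons_append, Wo, List.sum_append, List.length_cons, ih]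
    ring

theorem Wo_snoc (u : List ℕ) (e : ℕ) : Wo (u ++ [e]) = 2 ^ e * Wo u + 3 ^ u.length := by
  rw [Wo_append]; simp [Wo]

theorem Wo_odd {w : List ℕ} (hw : ∀ e ∈ w, 1 ≤ e) (hne : w ≠ []) : Wo w % 2 = 1 := by
  induction w with
  | nil => exact absurd rfl hne
  | cons e w ih =>
    cases w with
    | nil => simp [Wo]
    | cons e' w' =>
      have h1 := ih (fun x hx => hw x (List.mem_cons_of_mem _ hx)) (by simp)
      have h2 : 1 ≤ e' := hw e' (by simp)
      have h3 : 2 ∣ 2 ^ (e' :: w').sum := by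
        apply dvd_pow_self
        simp only [List.sum_cons]; omega
      rw [Wo]
      omega

theorem Wo_inj {u v : List ℕ} (hu : ∀ e ∈ u, 1 ≤ e) (hv : ∀ e ∈ v, 1 ≤ e)
    (hl : u.length = v.length) (hs : u.sum = v.sum) (hW : Wo u = Wo v) : u = v := by
  induction u using List.reverseRecOn generalizing v with
  | nil =>
    have : v.length = 0 := by simpa using hl.symm
    exact (List.length_eq_zero_iff.mp this).symm
  | append_singleton u e ih =>
    rcases List.eq_nil_or_concat v with rfl | ⟨v', e', hv'⟩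
    · simp at hl
    · rw [List.concat_eq_append] at hv'
      subst hv'
      simp only [List.length_append, List.length_singleton, Nat.add_right_cancel_iff] at hl
      simp only [List.sum_append, List.sum_singleton] at hs
      rw [Wo_snoc, Wo_snoc, hl] at hW
      have hW' : 2 ^ e * Wo u = 2 ^ e' * Wo v' := by omega
      by_cases hne : u = []
      · subst hne
        have : v' = [] := List.length_eq_zero_iff.mp (by simpa using hl.symm)
        subst this
        simp at hs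
        simp [hs]
      · have hne' : v' ≠ [] := by
          intro h; subst h
          exact hne (List.length_eq_zero_iff.mp (by simpa using hl))
        have hou := Wo_odd (fun x hx => hu x (List.mem_append_left _ hx)) hne
        have hov := Wo_odd (fun x hx => hv x (List.mem_append_left _ hx)) hne'
        have hee : e = e' := by
          rcases lt_trichotomy e e' with h | h | h
          · exfalso
            obtain ⟨d, rfl⟩ := Nat.exists_eq_add_of_lt h
            have h1 : 2 ^ e * Wo u = 2 ^ e * (2 * (2 ^ d * Wo v')) := by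
              rw [hW']; ring
            have h2 := Nat.eq_of_mul_eq_mul_left (by positivity) h1
            omega
          · exact h
          · exfalso
            obtain ⟨d, rfl⟩ := Nat.exists_eq_add_of_lt h
            have h1 : 2 ^ e' * Wo v' = 2 ^ e' * (2 * (2 ^ d * Wo u)) := by
              rw [← hW']; ring
            have h2 := Nat.eq_of_mul_eq_mul_left (by positivity) h1
            omega
        subst hee
        have hWW := Nat.eq_of_mul_eq_mul_left (by positivity) hW'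
        have := ih (v := v') (fun x hx => hu x (List.mem_append_left _ hx))
          (fun x hx => hv x (List.mem_append_left _ hx)) hl (by omega) hWW
        rw [this]

/-- `Wo w` is prime to 3 for nonempty words -/
theorem Wo_mod3 {w : List ℕ} (hw : w ≠ []) : ¬ (3 : ℤ) ∣ (Wo w : ℤ) := by
  cases w with
  | nil => exact absurd rfl hw
  | cons e w =>
    intro h
    have h1 : 3 ∣ Wo (e :: w) := by exact_mod_cast h
    rw [Wo] at h1
    have h2 : 3 ∣ 2 ^ w.sum := (Nat.dvd_add_left (Dvd.intro _ rfl)).mp h1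
    have h3 := (Nat.prime_three.dvd_of_dvd_pow h2)
    omega

theorem sum_le_of_mem {A n : ℕ} {w : List ℕ} (hw : w ∈ FW A n) : n ≤ w.sum ∧ w.sum ≤ n * A := by
  rw [mem_FW] at hw
  obtain ⟨rfl, h⟩ := hw
  constructor
  · have := List.card_nsmul_le_sum w 1 (fun x hx => (h x hx).1)
    simpa using this
  · have := List.sum_le_card_nsmul w A (fun x hx => (h x hx).2)
    simpa using this

theorem wwt_append (u v : List ℕ) : wwt (u ++ v) = wwt u * wwt v := by
  simp [wwt, pow_add]

theorem wwt_nonneg (w : List ℕ) : 0 ≤ wwt w := by unfold wwt; positivity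

theorem wwt_pos (w : List ℕ) : 0 < wwt w := by unfold wwt; positivity

theorem sum_pow (A n : ℕ) (r : ℝ) :
    ∑ w ∈ FW A n, r ^ w.sum = (∑ e ∈ Icc 1 A, r ^ e) ^ n := by
  induction n with
  | zero => simp [FW]
  | succ n ih =>
    rw [sum_FW_succ, pow_succ', ← ih, sum_mul]
    refine sum_congr rfl fun e _ => ?_
    rw [mul_sum]
    refine sum_congr rfl fun v _ => ?_
    rw [List.sum_cons, pow_add]

theorem sum_Icc_half (A : ℕ) : ∑ e ∈ Icc 1 A, (1 / 2 : ℝ) ^ e = 1 - (1 / 2) ^ A := by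
  induction A with
  | zero => simp
  | succ A ih =>
    rw [sum_Icc_succ_top (by omega), ih]
    ring

theorem sum_wwt (A n : ℕ) : ∑ w ∈ FW A n, wwt w = (1 - (1 / 2) ^ A) ^ n := by
  unfold wwt
  rw [sum_pow, sum_Icc_half]

theorem sum_wwt_le (A n : ℕ) : ∑ w ∈ FW A n, wwt w ≤ 1 := by
  rw [sum_wwt]
  have h : (1 / 2 : ℝ) ^ A ≤ 1 := pow_le_one₀ (by norm_num) (by norm_num)
  have h0 : (0 : ℝ) < (1 / 2 : ℝ) ^ A := by positivity
  exact pow_le_one₀ (by linarith) (by linarith)

/-- geometric bound for the generating function -/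
theorem sum_Icc_pow_le (A : ℕ) {r : ℝ} (h0 : 0 ≤ r) (h1 : r < 1) :
    ∑ e ∈ Icc 1 A, r ^ e ≤ r / (1 - r) := by
  have h : ∑ e ∈ Icc 1 A, r ^ e = r * (1 - r ^ A) / (1 - r) := by
    induction A with
    | zero => simp
    | succ A ih =>
      rw [sum_Icc_succ_top (by omega), ih]
      have : (1 - r) ≠ 0 := by linarith
      field_simp
      ring
  rw [h]
  apply div_le_div_of_nonneg_right _ (by linarith)
  have : 0 ≤ r ^ A := by positivity
  nlinarith

theorem gen_le (A n : ℕ) {θ : ℝ} (h0 : 0 < θ) (h2 : θ < 2) :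
    ∑ w ∈ FW A n, wwt w * θ ^ w.sum ≤ (θ / (2 - θ)) ^ n := by
  have h1 : ∀ w ∈ FW A n, wwt w * θ ^ w.sum = (θ / 2) ^ w.sum := by
    intro w _
    unfold wwt
    rw [← mul_pow]; congr 1; ring
  rw [sum_congr rfl h1, sum_pow]
  have h3 := sum_Icc_pow_le A (r := θ / 2) (by linarith) (by linarith)
  have h4 : θ / 2 / (1 - θ / 2) = θ / (2 - θ) := by
    have : (2 - θ) ≠ 0 := by linarith
    have : (1 - θ / 2) ≠ 0 := by
      intro h; apply this; linarith
    field_simp
  rw [h4] at h3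
  exact pow_le_pow_left₀ (sum_nonneg fun e _ => by positivity) h3 n

theorem gen_exp {s : ℝ} (hs : |s| ≤ 1 / 2) :
    (1 + s) / (2 - (1 + s)) ≤ Real.exp (2 * Real.log (1 + s) + 2 * s ^ 2) := by
  have hs' := abs_le.mp hs
  have h1 : 0 < 1 + s := by linarith
  have h2 : 0 < 1 - s := by linarith
  rw [Real.exp_add, show 2 * Real.log (1 + s) = Real.log (1 + s) + Real.log (1 + s) by ring,
    Real.exp_add, Real.exp_log h1]
  rw [show 2 - (1 + s) = 1 - s by ring, div_le_iff₀ h2]
  have h3 : 2 * s ^ 2 + 1 ≤ Real.exp (2 * s ^ 2) := Real.add_one_le_exp _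
  have h4 : s ^ 2 ≤ 1 / 4 := by nlinarith
  have h5 : 1 ≤ (1 + s) * (1 - s) * Real.exp (2 * s ^ 2) := by
    have h6 : (1 + s) * (1 - s) = 1 - s ^ 2 := by ring
    rw [h6]
    have h7 : 1 ≤ (1 - s ^ 2) * (2 * s ^ 2 + 1) := by nlinarith [sq_nonneg s]
    have h8 : (1 - s ^ 2) * (2 * s ^ 2 + 1) ≤ (1 - s ^ 2) * Real.exp (2 * s ^ 2) :=
      mul_le_mul_of_nonneg_left h3 (by linarith)
    linarith
  nlinarith

theorem tail_up (A n : ℕ) {η : ℝ} (hη : 0 < η) (hη1 : η ≤ 1) :
    ∑ w ∈ (FW A n).filter (fun w => η * n ≤ (w.sum : ℝ) - 2 * n), wwt w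
      ≤ Real.exp (-(η ^ 2 * n / 32)) := by
  set s : ℝ := η / 8 with hs
  have hs0 : 0 < s := by positivity
  have hs1 : s ≤ 1 / 8 := by rw [hs]; linarith
  have hθ : 0 < 1 + s := by linarith
  have hlog : s / 2 ≤ Real.log (1 + s) := by
    have := Real.one_sub_inv_le_log_of_pos hθ
    have h2 : s / 2 ≤ 1 - (1 + s)⁻¹ := by
      rw [show 1 - (1 + s)⁻¹ = s / (1 + s) by field_simp; ring]
      rw [div_le_div_iff₀ (by norm_num) hθ]
      nlinarith
    linarith
  have hpow : ∀ k : ℕ, (1 + s) ^ k = Real.exp (Real.log (1 + s) * k) := by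
    intro k
    rw [mul_comm, Real.exp_nat_mul, Real.exp_log hθ]
  have h1 : ∀ w ∈ (FW A n).filter (fun w => η * n ≤ (w.sum : ℝ) - 2 * n),
      wwt w ≤ Real.exp (-(Real.log (1 + s) * ((2 + η) * n))) * (wwt w * (1 + s) ^ w.sum) := by
    intro w hw
    rw [mem_filter] at hw
    have h2 : 1 ≤ Real.exp (-(Real.log (1 + s) * ((2 + η) * n))) * (1 + s) ^ w.sum := by
      rw [hpow, ← Real.exp_add]
      apply Real.one_le_exp
      have h3 : (2 + η) * n ≤ w.sum := by linarith [hw.2]
      have h4 : 0 ≤ Real.log (1 + s) := by linarith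
      nlinarith
    calc wwt w = wwt w * 1 := by ring
      _ ≤ wwt w * (Real.exp (-(Real.log (1 + s) * ((2 + η) * n))) * (1 + s) ^ w.sum) :=
          mul_le_mul_of_nonneg_left h2 (wwt_nonneg w)
      _ = _ := by ring
  calc ∑ w ∈ (FW A n).filter (fun w => η * n ≤ (w.sum : ℝ) - 2 * n), wwt w
      ≤ ∑ w ∈ (FW A n).filter (fun w => η * n ≤ (w.sum : ℝ) - 2 * n),
        Real.exp (-(Real.log (1 + s) * ((2 + η) * n))) * (wwt w * (1 + s) ^ w.sum) :=
        sum_le_sum h1
    _ ≤ ∑ w ∈ FW A n,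
        Real.exp (-(Real.log (1 + s) * ((2 + η) * n))) * (wwt w * (1 + s) ^ w.sum) := by
        apply sum_le_sum_of_subset_of_nonneg (filter_subset _ _)
        intro w _ _
        have := wwt_nonneg w
        positivity
    _ = Real.exp (-(Real.log (1 + s) * ((2 + η) * n))) * ∑ w ∈ FW A n, (wwt w * (1 + s) ^ w.sum) :=
        by rw [mul_sum]
    _ ≤ Real.exp (-(Real.log (1 + s) * ((2 + η) * n))) * ((1 + s) / (2 - (1 + s))) ^ n :=
        mul_le_mul_of_nonneg_left (gen_le A n hθ (by linarith)) (Real.exp_pos _).le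
    _ ≤ Real.exp (-(Real.log (1 + s) * ((2 + η) * n))) *
        (Real.exp (2 * Real.log (1 + s) + 2 * s ^ 2)) ^ n := by
        apply mul_le_mul_of_nonneg_left _ (Real.exp_pos _).le
        apply pow_le_pow_left₀
        · apply div_nonneg hθ.le; linarith
        · apply gen_exp
          rw [abs_of_pos hs0]; linarith
    _ = Real.exp (-(Real.log (1 + s) * (η * n)) + 2 * s ^ 2 * n) := by
        rw [← Real.exp_nat_mul, ← Real.exp_add]
        congr 1; ring
    _ ≤ _ := by
        apply Real.exp_le_exp.mpr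
        have hn : (0 : ℝ) ≤ n := Nat.cast_nonneg n
        have h5 : s / 2 * (η * n) ≤ Real.log (1 + s) * (η * n) :=
          mul_le_mul_of_nonneg_right hlog (by positivity)
        have h6 : s / 2 * (η * n) = η ^ 2 * n / 16 := by rw [hs]; ring
        have h7 : 2 * s ^ 2 * n = η ^ 2 * n / 32 := by rw [hs]; ring
        linarith

theorem tail_down (A n : ℕ) {η : ℝ} (hη : 0 < η) (hη1 : η ≤ 1) :
    ∑ w ∈ (FW A n).filter (fun w => η * n ≤ 2 * n - (w.sum : ℝ)), wwt w
      ≤ Real.exp (-(η ^ 2 * n / 32)) := by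
  set s : ℝ := -(η / 4) with hs
  have hs0 : s < 0 := by rw [hs]; linarith
  have hs1 : -(1 / 4) ≤ s := by rw [hs]; linarith
  have hθ : 0 < 1 + s := by linarith
  have hlog : Real.log (1 + s) ≤ s := by
    have := Real.log_le_sub_one_of_pos hθ
    linarith
  have hpow : ∀ k : ℕ, (1 + s) ^ k = Real.exp (Real.log (1 + s) * k) := by
    intro k
    rw [mul_comm, Real.exp_nat_mul, Real.exp_log hθ]
  have h1 : ∀ w ∈ (FW A n).filter (fun w => η * n ≤ 2 * n - (w.sum : ℝ)),
      wwt w ≤ Real.exp (-(Real.log (1 + s) * ((2 - η) * n))) * (wwt w * (1 + s) ^ w.sum) := by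
    intro w hw
    rw [mem_filter] at hw
    have h2 : 1 ≤ Real.exp (-(Real.log (1 + s) * ((2 - η) * n))) * (1 + s) ^ w.sum := by
      rw [hpow, ← Real.exp_add]
      apply Real.one_le_exp
      have h3 : w.sum ≤ (2 - η) * n := by linarith [hw.2]
      have h4 : Real.log (1 + s) ≤ 0 := by linarith
      nlinarith
    calc wwt w = wwt w * 1 := by ring
      _ ≤ wwt w * (Real.exp (-(Real.log (1 + s) * ((2 - η) * n))) * (1 + s) ^ w.sum) :=
          mul_le_mul_of_nonneg_left h2 (wwt_nonneg w)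
      _ = _ := by ring
  calc ∑ w ∈ (FW A n).filter (fun w => η * n ≤ 2 * n - (w.sum : ℝ)), wwt w
      ≤ ∑ w ∈ (FW A n).filter (fun w => η * n ≤ 2 * n - (w.sum : ℝ)),
        Real.exp (-(Real.log (1 + s) * ((2 - η) * n))) * (wwt w * (1 + s) ^ w.sum) :=
        sum_le_sum h1
    _ ≤ ∑ w ∈ FW A n,
        Real.exp (-(Real.log (1 + s) * ((2 - η) * n))) * (wwt w * (1 + s) ^ w.sum) := by
        apply sum_le_sum_of_subset_of_nonneg (filter_subset _ _)
        intro w _ _
        have := wwt_nonneg w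
        positivity
    _ = Real.exp (-(Real.log (1 + s) * ((2 - η) * n))) * ∑ w ∈ FW A n, (wwt w * (1 + s) ^ w.sum) :=
        by rw [mul_sum]
    _ ≤ Real.exp (-(Real.log (1 + s) * ((2 - η) * n))) * ((1 + s) / (2 - (1 + s))) ^ n :=
        mul_le_mul_of_nonneg_left (gen_le A n hθ (by linarith)) (Real.exp_pos _).le
    _ ≤ Real.exp (-(Real.log (1 + s) * ((2 - η) * n))) *
        (Real.exp (2 * Real.log (1 + s) + 2 * s ^ 2)) ^ n := by
        apply mul_le_mul_of_nonneg_left _ (Real.exp_pos _).le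
        apply pow_le_pow_left₀
        · apply div_nonneg hθ.le; linarith
        · apply gen_exp
          rw [abs_of_neg hs0]; linarith
    _ = Real.exp (Real.log (1 + s) * (η * n) + 2 * s ^ 2 * n) := by
        rw [← Real.exp_nat_mul, ← Real.exp_add]
        congr 1; ring
    _ ≤ _ := by
        apply Real.exp_le_exp.mpr
        have hn : (0 : ℝ) ≤ n := Nat.cast_nonneg n
        have h5 : Real.log (1 + s) * (η * n) ≤ s * (η * n) :=
          mul_le_mul_of_nonneg_right hlog (by positivity)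
        have h6 : s * (η * n) = -(η ^ 2 * n / 4) := by rw [hs]; ring
        have h7 : 2 * s ^ 2 * n = η ^ 2 * n / 8 := by rw [hs]; ring
        have h8 : 0 ≤ η ^ 2 * n := by positivity
        linarith

theorem tail (A n : ℕ) {η : ℝ} (hη : 0 < η) (hη1 : η ≤ 1) :
    ∑ w ∈ (FW A n).filter (fun w => η * n ≤ |(w.sum : ℝ) - 2 * n|), wwt w
      ≤ 2 * Real.exp (-(η ^ 2 * n / 32)) := by
  have hsub : (FW A n).filter (fun w => η * n ≤ |(w.sum : ℝ) - 2 * n|) ⊆
      (FW A n).filter (fun w => η * n ≤ (w.sum : ℝ) - 2 * n) ∪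
      (FW A n).filter (fun w => η * n ≤ 2 * n - (w.sum : ℝ)) := by
    intro w hw
    rw [mem_filter] at hw
    rw [mem_union, mem_filter, mem_filter]
    rcases le_abs.mp hw.2 with h | h
    · exact Or.inl ⟨hw.1, h⟩
    · exact Or.inr ⟨hw.1, by linarith⟩
  calc ∑ w ∈ (FW A n).filter (fun w => η * n ≤ |(w.sum : ℝ) - 2 * n|), wwt w
      ≤ ∑ w ∈ (FW A n).filter (fun w => η * n ≤ (w.sum : ℝ) - 2 * n) ∪
      (FW A n).filter (fun w => η * n ≤ 2 * n - (w.sum : ℝ)), wwt w :=
        sum_le_sum_of_subset_of_nonneg hsub fun w _ _ => wwt_nonneg w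
    _ ≤ ∑ w ∈ (FW A n).filter (fun w => η * n ≤ (w.sum : ℝ) - 2 * n), wwt w +
      ∑ w ∈ (FW A n).filter (fun w => η * n ≤ 2 * n - (w.sum : ℝ)), wwt w := by
        rw [← sum_union_inter]
        have : 0 ≤ ∑ w ∈ (FW A n).filter (fun w => η * n ≤ (w.sum : ℝ) - 2 * n) ∩
          (FW A n).filter (fun w => η * n ≤ 2 * n - (w.sum : ℝ)), wwt w :=
          sum_nonneg fun w _ => wwt_nonneg w
        linarith
    _ ≤ 2 * Real.exp (-(η ^ 2 * n / 32)) := by
        linarith [tail_up A n hη hη1, tail_down A n hη hη1]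

theorem first_moment (A n : ℕ) :
    ∑ w ∈ FW A n, wwt w * ((Wo w : ℝ) * wwt w) ≤ n / 3 := by
  induction n with
  | zero => simp [FW, Wo]
  | succ n ih =>
    rw [sum_FW_snoc]
    have h1 : ∀ u ∈ FW A n, ∑ e ∈ Icc 1 A, wwt (u ++ [e]) * ((Wo (u ++ [e]) : ℝ) * wwt (u ++ [e]))
        ≤ wwt u * ((Wo u : ℝ) * wwt u) + 3 ^ n * (1 / 4 : ℝ) ^ u.sum * (1 / 3) := by
      intro u hu
      have hl : u.length = n := (mem_FW.mp hu).1
      have h2 : ∀ e ∈ Icc 1 A, wwt (u ++ [e]) * ((Wo (u ++ [e]) : ℝ) * wwt (u ++ [e]))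
          = wwt u * ((Wo u : ℝ) * wwt u) * (1 / 2) ^ e + 3 ^ n * (1 / 4 : ℝ) ^ u.sum * (1 / 4) ^ e := by
        intro e _
        rw [wwt_append, Wo_snoc, hl]
        have h3 : wwt [e] = (1 / 2 : ℝ) ^ e := by simp [wwt]
        rw [h3]
        push_cast
        have h4 : wwt u * wwt u = (1 / 4 : ℝ) ^ u.sum := by
          unfold wwt; rw [← mul_pow]; norm_num
        have h5 : (1 / 2 : ℝ) ^ e * (1 / 2 : ℝ) ^ e = (1 / 4) ^ e := by
          rw [← mul_pow]; norm_num
        have h6 : (2 : ℝ) ^ e * (1 / 2 : ℝ) ^ e = 1 := by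
          rw [← mul_pow]; norm_num
        calc wwt u * (1 / 2) ^ e * ((2 ^ e * (Wo u : ℝ) + 3 ^ n) * (wwt u * (1 / 2) ^ e))
            = wwt u * (Wo u * wwt u) * (1 / 2) ^ e * ((2 : ℝ) ^ e * (1 / 2 : ℝ) ^ e)
              + 3 ^ n * (wwt u * wwt u) * ((1 / 2 : ℝ) ^ e * (1 / 2 : ℝ) ^ e) := by ring
          _ = _ := by rw [h4, h5, h6]; ring
      rw [sum_congr rfl h2, sum_add_distrib, ← mul_sum, ← mul_sum, sum_Icc_half]
      have h7 : ∑ e ∈ Icc 1 A, (1 / 4 : ℝ) ^ e ≤ 1 / 3 := by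
        have := sum_Icc_pow_le A (r := (1 / 4 : ℝ)) (by norm_num) (by norm_num)
        norm_num at this ⊢
        exact this
      have h8 : 0 ≤ wwt u * ((Wo u : ℝ) * wwt u) := by
        have := wwt_nonneg u; positivity
      have h9 : (0 : ℝ) < (1 / 2) ^ A := by positivity
      have h10 : (0 : ℝ) ≤ 3 ^ n * (1 / 4 : ℝ) ^ u.sum := by positivity
      nlinarith [mul_le_mul_of_nonneg_left h7 h10, mul_nonneg h8 h9.le]
    refine (sum_le_sum h1).trans ?_
    rw [sum_add_distrib, ← sum_mul, ← mul_sum, sum_pow]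
    have h7 : ∑ e ∈ Icc 1 A, (1 / 4 : ℝ) ^ e ≤ 1 / 3 := by
      have := sum_Icc_pow_le A (r := (1 / 4 : ℝ)) (by norm_num) (by norm_num)
      norm_num at this ⊢
      exact this
    have h8 : (∑ e ∈ Icc 1 A, (1 / 4 : ℝ) ^ e) ^ n ≤ (1 / 3) ^ n :=
      pow_le_pow_left₀ (sum_nonneg fun e _ => by positivity) h7 n
    have h9 : (3 : ℝ) ^ n * (∑ e ∈ Icc 1 A, (1 / 4 : ℝ) ^ e) ^ n ≤ 1 := by
      calc (3 : ℝ) ^ n * (∑ e ∈ Icc 1 A, (1 / 4 : ℝ) ^ e) ^ n ≤ 3 ^ n * (1 / 3) ^ n :=
            mul_le_mul_of_nonneg_left h8 (by positivity)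
        _ = 1 := by rw [← mul_pow]; norm_num
    push_cast
    linarith

/-- exactly one class mod `3^n` is sent to a given class -/
theorem unique_class (n T : ℕ) (c : ℤ) :
    ((range (3 ^ n)).filter (fun x : ℕ => (3 : ℤ) ^ n ∣ 2 ^ T * (x : ℤ) - c)).card = 1 := by
  have hcop : IsCoprime ((2 : ℤ) ^ T) ((3 : ℤ) ^ n) := by
    apply IsCoprime.pow
    rw [Int.isCoprime_iff_gcd_eq_one]
    rfl
  obtain ⟨u, v, huv⟩ := hcop
  have h3 : (0 : ℤ) < 3 ^ n := by positivity
  set x0 : ℤ := (u * c) % 3 ^ n with hx0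
  have hx0n : 0 ≤ x0 := Int.emod_nonneg _ h3.ne'
  have hx0l : x0 < 3 ^ n := Int.emod_lt_of_pos _ h3
  obtain ⟨y, hy⟩ := Int.eq_ofNat_of_zero_le hx0n
  rw [card_eq_one]
  refine ⟨y, ?_⟩
  ext x
  simp only [mem_filter, mem_range, mem_singleton]
  have hdiv : (3 : ℤ) ^ n ∣ u * c - x0 := by
    rw [hx0]; exact Int.dvd_self_sub_emod
  have hgood : (3 : ℤ) ^ n ∣ 2 ^ T * x0 - c := by
    obtain ⟨k, hk⟩ := hdiv
    refine ⟨-(2 ^ T * k) - v * c, ?_⟩
    have : x0 = u * c - 3 ^ n * k := by linarith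
    rw [this]
    linear_combination c * huv
  constructor
  · rintro ⟨hx, hxd⟩
    have h5 : (3 : ℤ) ^ n ∣ 2 ^ T * ((x : ℤ) - x0) := by
      have := dvd_sub hxd hgood
      rwa [show 2 ^ T * (x : ℤ) - c - (2 ^ T * x0 - c) = 2 ^ T * ((x : ℤ) - x0) by ring] at this
    have h6 : (3 : ℤ) ^ n ∣ (x : ℤ) - x0 := by
      have hc : IsCoprime ((3 : ℤ) ^ n) ((2 : ℤ) ^ T) := ⟨v, u, by linarith⟩
      exact hc.dvd_of_dvd_mul_left h5
    have h7 : ((x : ℤ) - x0) = 0 := by
      apply Int.eq_zero_of_abs_lt_dvd h6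
      rw [abs_lt]
      have hx' : (x : ℤ) < 3 ^ n := by exact_mod_cast hx
      constructor <;> linarith [Int.natCast_nonneg x]
    have h8 : (x : ℤ) = (y : ℤ) := by
      rw [hy] at h7; linarith
    exact_mod_cast h8
  · rintro rfl
    have hy' : x0 = (x : ℤ) := hy
    refine ⟨?_, ?_⟩
    · have : (x : ℤ) < 3 ^ n := by rw [← hy']; exact hx0l
      exact_mod_cast this
    · rw [← hy']; exact hgood

end Pool.Agent.H320R2.PD
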