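import Pool.Agent.H320R2.PDF3
import Pool.Agent.H320R2.PDEnt
import Pool.Agent.H320R2.PDWords

/-!
Positive density theorem: the entropy argument for the annealed nonuniformity.
-/

set_option autoImplicit false
set_option linter.unusedVariables false

namespace Pool.Agent.H320R2.PD

open Finset Real

lemma nml_le {x R : ℝ} (hx : 0 ≤ x) (hR : 0 < R) : negMulLog x ≤ x * log R + 1 / R := by
  rcases hx.eq_or_lt with h | h
  · rw [← h]; simp; positivity
  · have h1 := log_le_sub_one_of_pos (x := 1 / (x * R)) (by positivity)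
    rw [one_div, log_inv, log_mul h.ne' hR.ne'] at h1
    have h2 := mul_le_mul_of_nonneg_left h1 h.le
    have h3 : x * ((x * R)⁻¹ - 1) = 1 / R - x := by field_simp
    rw [h3] at h2
    simp only [negMulLog]
    nlinarith

lemma wwt_of_mem {A k T : ℕ} {w : List ℕ} (hw : w ∈ FWT A k T) : wwt w = (1 / 2) ^ T := by
  unfold FWT at hw
  rw [Finset.mem_filter] at hw
  unfold wwt
  rw [hw.2]

open scoped Classical in
/-- typical words -/
noncomputable def typ (A k : ℕ) (η : ℝ) : Finset (List ℕ) :=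
  (FW A k).filter fun w => |(w.sum : ℝ) - 2 * k| ≤ η * k ∧ (Wo w : ℝ) ≤ 2 ^ w.sum * (k : ℝ) ^ 2

open scoped Classical in
lemma typ_mass {A k : ℕ} {η : ℝ} (hη : 0 < η) (hη1 : η ≤ 1) (hk : 1 ≤ k) (hA : 3 * k ≤ A) :
    1 - 2 / k - 64 / (η ^ 2 * k) ≤ ∑ w ∈ typ A k η, wwt w := by
  have hk0 : (0 : ℝ) < k := by exact_mod_cast hk
  have h1 : ∑ w ∈ FW A k, wwt w ≤ ∑ w ∈ typ A k η, wwt w
      + ∑ w ∈ (FW A k).filter (fun w => η * k ≤ |(w.sum : ℝ) - 2 * k|), wwt w
      + ∑ w ∈ FW A k, wwt w * ((Wo w : ℝ) * wwt w) / (k : ℝ) ^ 2 := by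
    unfold typ
    rw [Finset.sum_filter, Finset.sum_filter, ← Finset.sum_add_distrib, ← Finset.sum_add_distrib]
    apply Finset.sum_le_sum
    intro w _
    have hw := wwt_pos w
    have hW : (0 : ℝ) ≤ Wo w := by positivity
    by_cases ha : |(w.sum : ℝ) - 2 * k| ≤ η * k
    · by_cases hb : (Wo w : ℝ) ≤ 2 ^ w.sum * (k : ℝ) ^ 2
      · rw [if_pos ⟨ha, hb⟩]
        have : 0 ≤ (if η * k ≤ |(w.sum : ℝ) - 2 * k| then wwt w else 0) := by
          split_ifs <;> [exact hw.le; exact le_rfl]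
        have h2 : 0 ≤ wwt w * ((Wo w : ℝ) * wwt w) / (k : ℝ) ^ 2 := by positivity
        linarith
      · rw [if_neg (fun h => hb h.2)]
        push Not at hb
        have : 0 ≤ (if η * k ≤ |(w.sum : ℝ) - 2 * k| then wwt w else 0) := by
          split_ifs <;> [exact hw.le; exact le_rfl]
        have h2 : wwt w ≤ wwt w * ((Wo w : ℝ) * wwt w) / (k : ℝ) ^ 2 := by
          rw [le_div_iff₀ (by positivity)]
          refine mul_le_mul_of_nonneg_left ?_ hw.le
          have h3 : wwt w * 2 ^ w.sum = 1 := by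
            unfold wwt
            rw [← mul_pow]
            norm_num
          have h4 := mul_le_mul_of_nonneg_right hb.le hw.le
          calc (k : ℝ) ^ 2 = 2 ^ w.sum * (k : ℝ) ^ 2 * wwt w := by
                rw [mul_right_comm, mul_comm (2 ^ w.sum) (wwt w), h3, one_mul]
            _ ≤ _ := h4
        linarith
    · rw [if_neg (fun h => ha h.1), if_pos (le_of_lt (not_le.1 ha))]
      have h2 : 0 ≤ wwt w * ((Wo w : ℝ) * wwt w) / (k : ℝ) ^ 2 := by positivity
      linarith
  have h2 := tail A k hη hη1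
  have h3 : ∑ w ∈ FW A k, wwt w * ((Wo w : ℝ) * wwt w) / (k : ℝ) ^ 2 ≤ 1 / k := by
    rw [← Finset.sum_div, div_le_iff₀ (by positivity)]
    refine (first_moment A k).trans ?_
    rw [show 1 / (k : ℝ) * (k : ℝ) ^ 2 = k by field_simp]
    linarith
  have h4 : 1 - 1 / (k : ℝ) ≤ ∑ w ∈ FW A k, wwt w := by
    rw [sum_wwt]
    have hb := one_add_mul_le_pow (a := -(1 / 2 : ℝ) ^ A) (by
      have : (1 / 2 : ℝ) ^ A ≤ 1 := pow_le_one₀ (by norm_num) (by norm_num)
      linarith) k
    have h5 : (k : ℝ) * (1 / 2) ^ A ≤ 1 / k := by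
      rw [le_div_iff₀ hk0]
      have h6 : (1 / 2 : ℝ) ^ A ≤ (1 / 2) ^ (3 * k) :=
        pow_le_pow_of_le_one (by norm_num) (by norm_num) hA
      have h7 : (k : ℝ) < 2 ^ k := by exact_mod_cast Nat.lt_two_pow_self
      have h8 : (k : ℝ) * (1 / 2) ^ k ≤ 1 := by
        rw [one_div_pow, mul_one_div, div_le_one (by positivity)]
        exact h7.le
      have h9 : (0 : ℝ) ≤ (1 / 2) ^ k := by positivity
      have h10 : (1 / 2 : ℝ) ^ k ≤ 1 := pow_le_one₀ (by norm_num) (by norm_num)
      calc (k : ℝ) * (1 / 2) ^ A * k ≤ k * (1 / 2) ^ (3 * k) * k := by gcongr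
        _ = (k * (1 / 2) ^ k) * (k * (1 / 2) ^ k) * (1 / 2) ^ k := by
          rw [show 3 * k = k + k + k by ring, pow_add, pow_add]; ring
        _ ≤ 1 * 1 * 1 := by
          gcongr
        _ = 1 := by norm_num
    have h6 : 1 + (k : ℝ) * (-(1 / 2 : ℝ) ^ A) = 1 - k * (1 / 2) ^ A := by ring
    rw [h6] at hb
    have h7 : (1 + -(1 / 2 : ℝ) ^ A) ^ k = (1 - (1 / 2) ^ A) ^ k := by ring_nf
    rw [h7] at hb
    linarith
  have h5 : 2 * exp (-(η ^ 2 * k / 32)) ≤ 64 / (η ^ 2 * k) := by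
    have h6 : η ^ 2 * k / 32 ≤ exp (η ^ 2 * k / 32) := by
      have := add_one_le_exp (η ^ 2 * k / 32)
      linarith
    rw [exp_neg]
    have h7 : (exp (η ^ 2 * k / 32))⁻¹ ≤ (η ^ 2 * k / 32)⁻¹ := by
      gcongr
    calc 2 * (exp (η ^ 2 * k / 32))⁻¹ ≤ 2 * (η ^ 2 * k / 32)⁻¹ := by gcongr
      _ = 64 / (η ^ 2 * k) := by field_simp; norm_num
  have h6 : ∑ w ∈ (FW A k).filter (fun w => η * k ≤ |(w.sum : ℝ) - 2 * k|), wwt w
      ≤ 2 * exp (-(η ^ 2 * k / 32)) := by
    convert h2 using 2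
  have e : (2 : ℝ) / k = 1 / k + 1 / k := by ring
  rw [e]
  linarith

open scoped Classical in
/-- entropy bound, summed over the sizes -/
lemma gam_sum_le {A k : ℕ} {η : ℝ} (hη : 0 < η) (hη1 : η ≤ 1) (hk : 1 ≤ k) (M : ℕ)
    (hM : (2 : ℝ) ^ ((2 + η) * k) * (k : ℝ) ^ 2 < 3 ^ M) :
    ∑ j ∈ range M, gam A k j ≤ 3 * (M * log 3 - (2 - η) * k * log 2 * ∑ w ∈ typ A k η, wwt w
      + log (3 * k + 1) + 1) := by
  have hk0 : (0 : ℝ) < k := by exact_mod_cast hk
  set s1 : ℕ → Finset (List ℕ) := fun T => (typ A k η).filter fun w => w.sum = T with hs1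
  have hs1sub : ∀ T, s1 T ⊆ FWT A k T := by
    intro T w hw
    simp only [hs1, typ, Finset.mem_filter] at hw
    unfold FWT
    rw [Finset.mem_filter]
    exact ⟨hw.1.1, hw.2⟩
  set μ : ℕ → ℝ := fun T => (s1 T).card * (1 / 2 : ℝ) ^ T with hμ
  have hμ0 : ∀ T, 0 ≤ μ T := fun T => by positivity
  have hμs : ∀ T, ∑ w ∈ s1 T, wwt w = μ T := by
    intro T
    rw [Finset.sum_congr rfl (fun w hw => wwt_of_mem (hs1sub T hw)), Finset.sum_const,
      nsmul_eq_mul]
  -- size constraints
  have hsize : ∀ T, (s1 T).Nonempty → |(T : ℝ) - 2 * k| ≤ η * k := by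
    rintro T ⟨w, hw⟩
    simp only [hs1, typ, Finset.mem_filter] at hw
    rw [← hw.2]
    exact hw.1.2.1
  have hWsmall : ∀ T, ∀ w ∈ s1 T, (Wo w : ℝ) < 3 ^ M := by
    intro T w hw
    have h1 := hsize T ⟨w, hw⟩
    simp only [hs1, typ, Finset.mem_filter] at hw
    have h2 := hw.1.2.2
    rw [hw.2] at h2
    refine (h2.trans ?_).trans_lt hM
    refine mul_le_mul_of_nonneg_right ?_ (by positivity)
    rw [← Real.rpow_natCast]
    apply Real.rpow_le_rpow_of_exponent_le (by norm_num)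
    have := (abs_le.1 h1).2
    linarith
  have hinj : ∀ T, ∀ w ∈ s1 T, ∀ w' ∈ s1 T, (3 : ℤ) ^ M ∣ (Wo w : ℤ) - Wo w' → w = w' := by
    intro T w hw w' hw' hd
    have h1 := hWsmall T w hw
    have h2 := hWsmall T w' hw'
    have h1' : (Wo w : ℤ) < 3 ^ M := by exact_mod_cast h1
    have h2' : (Wo w' : ℤ) < 3 ^ M := by exact_mod_cast h2
    have h3 : (Wo w : ℤ) - Wo w' = 0 := by
      apply Int.eq_zero_of_abs_lt_dvd hd
      rw [abs_lt]
      constructor
      · have : (0 : ℤ) ≤ Wo w := by positivity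
        linarith
      · have : (0 : ℤ) ≤ Wo w' := by positivity
        linarith
    have h4 : Wo w = Wo w' := by exact_mod_cast sub_eq_zero.1 h3
    have m1 := hs1sub T hw
    have m2 := hs1sub T hw'
    unfold FWT at m1 m2
    rw [Finset.mem_filter] at m1 m2
    have f1 := mem_FW.1 m1.1
    have f2 := mem_FW.1 m2.1
    exact Wo_inj (fun e he => (f1.2 e he).1) (fun e he => (f2.2 e he).1) (by rw [f1.1, f2.1])
      (by rw [m1.2, m2.2]) h4
  have hT : ∀ T ∈ range (k * A + 1), ∑ j ∈ range M, Gam (FWT A k T) wwt (fun w => (Wo w : ℤ)) j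
      ≤ 3 * (M * log 3 * ∑ w ∈ FWT A k T, wwt w - (T * log 2 * μ T - negMulLog (μ T))) := by
    intro T _
    have h1 := Gam_entropy (s := FWT A k T) (wt := wwt) (fun w => (Wo w : ℤ)) M
      (fun w _ => (wwt_pos w).le)
    have h2 := ent_lower (s := FWT A k T) (s₁ := s1 T) (wt := wwt) (fun w => (Wo w : ℤ)) M
      (fun w _ => (wwt_pos w).le) (hs1sub T) (p := (1 / 2 : ℝ) ^ T) (by positivity)
      (pow_le_one₀ (by norm_num) (by norm_num)) (fun w hw => wwt_of_mem (hs1sub T hw))
      (hinj T)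
    have h3 : log (1 / (1 / 2 : ℝ) ^ T) = T * log 2 := by
      rw [one_div, ← inv_pow, one_div, inv_inv, log_pow]
    rw [h3] at h2
    refine h1.trans ?_
    have e : ((s1 T).card : ℝ) * (1 / 2) ^ T = μ T := rfl
    rw [e] at h2
    nlinarith
  have hsum : ∑ j ∈ range M, gam A k j
      ≤ ∑ T ∈ range (k * A + 1), 3 * (M * log 3 * ∑ w ∈ FWT A k T, wwt w
        - (T * log 2 * μ T - negMulLog (μ T))) := by
    unfold gam
    rw [Finset.sum_comm]
    exact Finset.sum_le_sum hT
  refine hsum.trans ?_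
  rw [← Finset.mul_sum]
  refine mul_le_mul_of_nonneg_left ?_ (by norm_num)
  rw [Finset.sum_sub_distrib, ← Finset.mul_sum, Finset.sum_sub_distrib]
  have hmaps : ∀ w ∈ FW A k, w.sum ∈ range (k * A + 1) := by
    intro w hw
    rw [mem_range]
    have := (sum_le_of_mem hw).2
    omega
  have t1 : ∑ T ∈ range (k * A + 1), ∑ w ∈ FWT A k T, wwt w ≤ 1 := by
    have h1 : ∑ T ∈ range (k * A + 1), ∑ w ∈ FWT A k T, wwt w = ∑ w ∈ FW A k, wwt w :=
      Finset.sum_fiberwise_of_maps_to hmaps wwt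
    rw [h1]
    exact sum_wwt_le A k
  have t2 : ∑ T ∈ range (k * A + 1), μ T = ∑ w ∈ typ A k η, wwt w := by
    have hmaps2 : ∀ w ∈ typ A k η, w.sum ∈ range (k * A + 1) := by
      intro w hw
      unfold typ at hw
      rw [Finset.mem_filter] at hw
      exact hmaps w hw.1
    rw [← Finset.sum_fiberwise_of_maps_to hmaps2 wwt]
    exact Finset.sum_congr rfl fun T _ => (hμs T).symm
  have hl2 : 0 < log 2 := log_pos (by norm_num)
  have t3 : (2 - η) * k * log 2 * ∑ w ∈ typ A k η, wwt w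
      ≤ ∑ T ∈ range (k * A + 1), T * log 2 * μ T := by
    rw [← t2, Finset.mul_sum]
    apply Finset.sum_le_sum
    intro T _
    rcases (s1 T).eq_empty_or_nonempty with h | h
    · have : μ T = 0 := by simp only [hμ, h]; simp
      rw [this]; simp
    · have h1 := (abs_le.1 (hsize T h)).1
      refine mul_le_mul_of_nonneg_right ?_ (hμ0 T)
      refine mul_le_mul_of_nonneg_right ?_ hl2.le
      linarith
  have t4 : ∑ T ∈ range (k * A + 1), negMulLog (μ T) ≤ log (3 * k + 1) + 1 := by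
    set R : ℝ := 3 * k + 1 with hR
    have hR0 : 0 < R := by positivity
    have h1 : ∀ T ∈ range (k * A + 1), negMulLog (μ T)
        ≤ μ T * log R + (if T ∈ range (3 * k + 1) then 1 / R else 0) := by
      intro T _
      rcases (s1 T).eq_empty_or_nonempty with h | h
      · have : μ T = 0 := by simp only [hμ, h]; simp
        rw [this]
        simp only [negMulLog_zero, zero_mul, zero_add]
        split_ifs
        · positivity
        · exact le_rfl
      · have h2 := (abs_le.1 (hsize T h)).2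
        have h3 : T ∈ range (3 * k + 1) := by
          rw [mem_range]
          have : (T : ℝ) ≤ 3 * k := by nlinarith
          have : T ≤ 3 * k := by exact_mod_cast this
          omega
        rw [if_pos h3]
        exact nml_le (hμ0 T) hR0
    refine (Finset.sum_le_sum h1).trans ?_
    rw [Finset.sum_add_distrib, ← Finset.sum_mul, t2]
    have h2 : ∑ w ∈ typ A k η, wwt w ≤ 1 := by
      refine le_trans (Finset.sum_le_sum_of_subset_of_nonneg (t := FW A k)
        (Finset.filter_subset _ _) ?_) (sum_wwt_le A k)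
      intro w _ _
      exact (wwt_pos w).le
    have h3 : 0 ≤ log R := log_nonneg (by rw [hR]; nlinarith)
    have h4 : ∑ T ∈ range (k * A + 1), (if T ∈ range (3 * k + 1) then 1 / R else 0) ≤ 1 := by
      rw [← Finset.sum_filter, Finset.sum_const, nsmul_eq_mul, mul_one_div, div_le_one hR0]
      have : ((range (k * A + 1)).filter (fun T => T ∈ range (3 * k + 1))).card ≤ 3 * k + 1 := by
        refine (Finset.card_le_card (t := range (3 * k + 1)) ?_).trans (by rw [card_range])
        intro T hT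
        exact (Finset.mem_filter.1 hT).2
      rw [hR]
      exact_mod_cast this
    have h5 := mul_le_mul_of_nonneg_right h2 h3
    rw [one_mul] at h5
    linarith
  have hM0 : 0 ≤ (M : ℝ) * log 3 := mul_nonneg (by positivity) (log_nonneg (by norm_num))
  have := mul_le_mul_of_nonneg_left t1 hM0
  rw [mul_one] at this
  linarith

theorem gam_good {ε : ℝ} (hε : 0 < ε) : ∃ k₀ : ℕ, ∀ k, k₀ ≤ k → ∀ A, 3 * k ≤ A →
    ∃ q : ℕ, 11 * k ≤ 10 * q ∧ 10 * q ≤ 12 * k ∧ gam A k q ≤ ε := by
  set η : ℝ := min (ε / 200) (1 / 10) with hη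
  have hη0 : 0 < η := lt_min (by positivity) (by norm_num)
  have hη1 : η ≤ 1 := (min_le_right _ _).trans (by norm_num)
  have hηε : η ≤ ε / 200 := min_le_left _ _
  obtain ⟨k0, hk0⟩ := exists_nat_ge (max ((24 / η) ^ 2) ((20 + 256 / η ^ 2) / η * 2))
  refine ⟨k0 + 40, fun k hk A hA => ?_⟩
  have hkp : (0 : ℝ) < k := by exact_mod_cast (by omega : 0 < k)
  have hkk : (k0 : ℝ) ≤ k := by exact_mod_cast (by omega : k0 ≤ k)
  have hb1 : (24 / η) ^ 2 ≤ k := (le_max_left _ _).trans (hk0.trans hkk)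
  have hb2 : (20 + 256 / η ^ 2) / η * 2 ≤ k := (le_max_right _ _).trans (hk0.trans hkk)
  have hl2 : 0 < log 2 := log_pos (by norm_num)
  have hl3 : 0 < log 3 := log_pos (by norm_num)
  have hlk : 0 ≤ log k := log_nonneg (by exact_mod_cast (by omega : 1 ≤ k))
  set E : ℝ := (2 + η) * k * log 2 + 2 * log k with hE
  have hE0 : 0 ≤ E := by positivity
  set M : ℕ := ⌊E / log 3⌋₊ + 1 with hM
  have hM1 : E < M * log 3 := by
    have := Nat.lt_floor_add_one (E / log 3)
    rw [div_lt_iff₀ hl3] at this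
    rw [hM]; push_cast; exact this
  have hM2 : (M : ℝ) * log 3 ≤ E + log 3 := by
    have := Nat.floor_le (a := E / log 3) (by positivity)
    rw [le_div_iff₀ hl3] at this
    rw [hM]; push_cast
    linarith
  have hM3 : (2 : ℝ) ^ ((2 + η) * k) * (k : ℝ) ^ 2 < 3 ^ M := by
    rw [← log_lt_log_iff (by positivity) (by positivity), log_mul (by positivity) (by positivity),
      log_rpow (by norm_num), log_pow, log_pow]
    push_cast
    exact hM1
  have hsum := gam_sum_le (A := A) hη0 hη1 (by omega) M hM3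
  have htyp := typ_mass (A := A) hη0 hη1 (k := k) (by omega) hA
  have hl2' : log 2 ≤ 1 := by
    have := log_two_lt_d9
    linarith
  -- bound of the sum
  have hlog : 2 * log k + log (3 * k + 1) ≤ η * k / 2 := by
    have h1 : log ((k : ℝ)) ≤ 2 * √k := by
      have h2 := log_le_sub_one_of_pos (x := √(k : ℝ)) (Real.sqrt_pos.2 hkp)
      rw [Real.log_sqrt hkp.le] at h2
      linarith
    have h3 : log (3 * (k : ℝ) + 1) ≤ 4 * √k := by
      have h4 : 0 < √(3 * (k : ℝ) + 1) := Real.sqrt_pos.2 (by positivity)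
      have h2 := log_le_sub_one_of_pos h4
      rw [Real.log_sqrt (by positivity)] at h2
      have h5 : √(3 * (k : ℝ) + 1) ≤ √(4 * k) := by
        apply Real.sqrt_le_sqrt
        have : (1 : ℝ) ≤ k := by exact_mod_cast (by omega : 1 ≤ k)
        linarith
      have h6 : √(4 * (k : ℝ)) = 2 * √k := by
        rw [Real.sqrt_mul (by norm_num), show (4 : ℝ) = 2 ^ 2 by norm_num,
          Real.sqrt_sq (by norm_num)]
      linarith
    have h7 : 24 / η ≤ √k := by
      rw [← Real.sqrt_sq (show 0 ≤ 24 / η by positivity)]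
      exact Real.sqrt_le_sqrt hb1
    have h8 : 24 ≤ η * √k := by
      rw [div_le_iff₀ hη0] at h7
      linarith
    have h9 : √(k : ℝ) * √k = k := Real.mul_self_sqrt hkp.le
    have h10 : 0 < √(k : ℝ) := Real.sqrt_pos.2 hkp
    nlinarith [mul_le_mul_of_nonneg_right h8 h10.le]
  have hconst : 20 + 256 / η ^ 2 ≤ η * k / 2 := by
    have h1 := mul_le_mul_of_nonneg_right hb2 hη0.le
    have h2 : (20 + 256 / η ^ 2) / η * 2 * η = (20 + 256 / η ^ 2) * 2 := by field_simp
    rw [h2] at h1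
    linarith
  have hmain : ∑ j ∈ range M, gam A k j ≤ 9 * η * k := by
    refine hsum.trans ?_
    have h1 : (2 - η) * k * log 2 * (1 - 2 / k - 64 / (η ^ 2 * k))
        ≤ (2 - η) * k * log 2 * ∑ w ∈ typ A k η, wwt w := by
      refine mul_le_mul_of_nonneg_left htyp ?_
      have : 0 ≤ 2 - η := by linarith
      positivity
    have h2 : (2 - η) * k * log 2 * (1 - 2 / k - 64 / (η ^ 2 * k))
        = (2 - η) * k * log 2 - (2 - η) * log 2 * (2 + 64 / η ^ 2) := by
      field_simp
      ring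
    have h3 : (2 - η) * log 2 * (2 + 64 / η ^ 2) ≤ 2 * (2 + 64 / η ^ 2) := by
      refine mul_le_mul_of_nonneg_right ?_ (by positivity)
      nlinarith
    have hl3' : log 3 ≤ 2 := by
      have := log_le_sub_one_of_pos (x := 3) (by norm_num)
      linarith
    have h4 : 2 * η * k * log 2 ≤ 2 * η * k := by
      have : 0 ≤ 2 * η * k := by positivity
      nlinarith
    have h5 : (0 : ℝ) ≤ 64 / η ^ 2 := by positivity
    have h6 : (256 : ℝ) / η ^ 2 = 4 * (64 / η ^ 2) := by ring
    rw [h6] at hconst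
    rw [h2] at h1
    have h7 : (M : ℝ) * log 3 ≤ (2 + η) * k * log 2 + 2 * log k + 2 := by linarith
    have h8 : (2 + η) * k * log 2 - (2 - η) * k * log 2 = 2 * η * k * log 2 := by ring
    generalize (2 - η) * k * log 2 * ∑ w ∈ typ A k η, wwt w = S0 at h1 ⊢
    generalize (2 - η) * log 2 * (2 + 64 / η ^ 2) = Z0 at h1 h3
    generalize (2 + η) * (k : ℝ) * log 2 = a1 at h7 h8
    generalize (2 - η) * (k : ℝ) * log 2 = a2 at h1 h8
    generalize 2 * η * (k : ℝ) * log 2 = a3 at h4 h8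
    generalize (64 : ℝ) / η ^ 2 = a4 at h3 h5 hconst
    have h9 : η * k / 2 = η * k * (1 / 2) := by ring
    have h10 : 2 * η * (k : ℝ) = 2 * (η * k) := by ring
    have h11 : 9 * η * (k : ℝ) = 9 * (η * k) := by ring
    rw [h9] at hlog hconst
    rw [h10] at h4
    rw [h11]
    generalize η * (k : ℝ) = a5 at *
    linarith
  -- averaging
  by_contra hcon
  push Not at hcon
  set J := Icc ((11 * k + 9) / 10) (12 * k / 10) with hJ
  have hMk : 12 * k / 10 < M := by
    have h1 : (12 * (k : ℝ) / 10) < M := by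
      have h2 : 2 * log 2 * k ≤ E := by
        rw [hE]
        have : 0 ≤ η * k * log 2 := by positivity
        nlinarith
      have h3 : 12 / 10 * log 3 ≤ 2 * log 2 := by
        have h4 : log ((3 : ℝ) ^ 6) ≤ log ((2 : ℝ) ^ 10) := log_le_log (by norm_num) (by norm_num)
        rw [log_pow, log_pow] at h4
        push_cast at h4
        linarith
      have h5 : 12 * (k : ℝ) / 10 * log 3 < M * log 3 := by
        calc 12 * (k : ℝ) / 10 * log 3 = (12 / 10 * log 3) * k := by ring
          _ ≤ (2 * log 2) * k := by gcongr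
          _ ≤ E := h2
          _ < M * log 3 := hM1
      exact lt_of_mul_lt_mul_right h5 hl3.le
    have h2 : ((12 * k / 10 : ℕ) : ℝ) ≤ 12 * k / 10 := by
      have := Nat.cast_div_le (α := ℝ) (m := 12 * k) (n := 10)
      push_cast at this
      exact this
    exact_mod_cast h2.trans_lt h1
  have hJsub : J ⊆ range M := by
    intro j hj
    rw [hJ, Finset.mem_Icc] at hj
    rw [mem_range]
    omega
  have hJcard : (k : ℝ) / 20 ≤ J.card := by
    rw [hJ, Nat.card_Icc]
    rw [div_le_iff₀ (by norm_num)]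
    exact_mod_cast (by omega : k ≤ (12 * k / 10 + 1 - (11 * k + 9) / 10) * 20)
  have h1 : (J.card : ℝ) * ε ≤ ∑ j ∈ J, gam A k j := by
    rw [← nsmul_eq_mul, ← Finset.sum_const]
    apply Finset.sum_le_sum
    intro j hj
    rw [hJ, Finset.mem_Icc] at hj
    exact (hcon j (by omega) (by omega)).le
  have h2 : ∑ j ∈ J, gam A k j ≤ ∑ j ∈ range M, gam A k j := by
    apply Finset.sum_le_sum_of_subset_of_nonneg hJsub
    intro j _ _
    exact Finset.sum_nonneg fun T _ => Gam_nonneg _ _ fun w _ => (wwt_pos w).le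
  have h3 : (k : ℝ) / 20 * ε ≤ J.card * ε := by gcongr
  have h4 : (k : ℝ) / 20 * ε ≤ 9 * η * k := h3.trans (h1.trans (h2.trans hmain))
  have h5 : 9 * η * k ≤ 9 * (ε / 200) * k := by gcongr
  have h6 : 0 < ε * k := by positivity
  nlinarith

end Pool.Agent.H320R2.PD
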