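import Mathlib

/-!
POSITIVE DENSITY of predecessor sets of the 3x+1 map: shared definitions.

Words are lists of letters `e ≥ 1` (first letter first). A word `w` of length `n`, size `T = w.sum`,
offset `Wo w` is valid at the integer `x` iff `3^n ∣ 2^T x - Wo w`; its endpoint is
`(2^T x - Wo w)/3^n` (iterating the letter map `x ↦ b`, `3 b + 1 = 2^e x`).
-/

set_option autoImplicit false

namespace Pool.Agent.H320R2.PD

open Finset

/-- all words of length `n` with letters in `[1,A]` -/
def FW (A : ℕ) : ℕ → Finset (List ℕ)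
  | 0 => {[]}
  | n + 1 => (Finset.Icc 1 A).biUnion fun e => (FW A n).image (List.cons e)

/-- offset of a word (first letter first) -/
def Wo : List ℕ → ℕ
  | [] => 0
  | e :: w => 2 ^ w.sum + 3 * Wo w

/-- homogeneous nonuniformity functional on `ℤ/3`: `|f^(1)|^2 / f(ℤ/3)` -/
noncomputable def F3 (a b c : ℝ) : ℝ := (a ^ 2 + b ^ 2 + c ^ 2 - a * b - b * c - c * a) / (a + b + c)

open scoped Classical in
/-- mass of the residue class of `c` mod `3^M` for a finite weighted family of integers -/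
noncomputable def cnt {ι : Type*} (s : Finset ι) (wt : ι → ℝ) (v : ι → ℤ) (M : ℕ) (c : ℤ) : ℝ :=
  ∑ i ∈ s, if (3 : ℤ) ^ M ∣ v i - c then wt i else 0

/-- nonuniformity of the digit number `J` inside the class of `c` mod `3^J` -/
noncomputable def Fib {ι : Type*} (s : Finset ι) (wt : ι → ℝ) (v : ι → ℤ) (J : ℕ) (c : ℤ) : ℝ :=
  F3 (cnt s wt v (J + 1) c) (cnt s wt v (J + 1) (c + 3 ^ J)) (cnt s wt v (J + 1) (c + 2 * 3 ^ J))

/-- total nonuniformity of the digit number `J` given the lower digits -/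
noncomputable def Gam {ι : Type*} (s : Finset ι) (wt : ι → ℝ) (v : ι → ℤ) (J : ℕ) : ℝ :=
  ∑ c ∈ range (3 ^ J), Fib s wt v J (c : ℤ)

/-- words of length `k` and size `T` -/
def FWT (A k T : ℕ) : Finset (List ℕ) := (FW A k).filter fun w => w.sum = T

/-- weight `2^{-T}` of a word -/
noncomputable def wwt (w : List ℕ) : ℝ := (1 / 2 : ℝ) ^ w.sum

/-- annealed nonuniformity of the digit `j` of the offset of `k` letters, given the size -/
noncomputable def gam (A k j : ℕ) : ℝ :=
  ∑ T ∈ range (k * A + 1), Gam (FWT A k T) wwt (fun w => (Wo w : ℤ)) j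

/-- nice words: all prefixes of length `i ≥ N0` have size within `i/20` of `2i` -/
def Nice (N0 : ℕ) (w : List ℕ) : Prop :=
  ∀ i, N0 ≤ i → i ≤ w.length → 39 * i ≤ 20 * (w.take i).sum ∧ 20 * (w.take i).sum ≤ 41 * i

open scoped Classical in
/-- quenched weighted sum over the nice words of length `n` valid at `x` -/
noncomputable def U (N0 A n : ℕ) (x : ℤ) (f : ℕ → ℝ) : ℝ :=
  ∑ w ∈ (FW A n).filter (fun w => Nice N0 w ∧ (3 : ℤ) ^ n ∣ 2 ^ w.sum * x - Wo w),
    (3 : ℝ) ^ n / 2 ^ w.sum * f w.sum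

/-- the 3x+1 map on the integers -/
def fT : ℤ → ℤ := fun m : ℤ => if m % 2 = 0 then m / 2 else (3 * m + 1) / 2

end Pool.Agent.H320R2.PD
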