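import Pool.Agent.H320R2.PDPosAux
import Pool.Agent.H320R2.PDQuenched

/-!
Positive density theorem: a good class.
-/

set_option autoImplicit false

namespace Pool.Agent.H320R2.PD

theorem good_class : ∃ (N0 N : ℕ) (r : ℤ), N0 ≤ N ∧ 1 ≤ N ∧ ¬ (3 : ℤ) ∣ r ∧
    ∀ x : ℤ, (3 : ℤ) ^ N ∣ x - r → ∀ A n : ℕ, N ≤ n → 3 * n ≤ A →
      (1 / 4 : ℝ) ≤ U N0 A n x (fun _ => 1) :=
  good_class_of quenched

end Pool.Agent.H320R2.PD
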