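import Pool.Agent.H320R2.PDFinalB
import Pool.Agent.H320R2.PDCountOf
import Pool.Agent.H320R2.PDPos

/-!
POSITIVE LOWER DENSITY of the predecessor sets of the 3x+1 map: the final statements.
-/

set_option autoImplicit false

namespace Pool.Agent.H320R2.PD

theorem countStmt : CountStmt := fun {_ _} hN x h => Cnt.count_nodes_of quenched hN x h

theorem woInjStmt : WoInjStmt := fun {_ _} hu hv hl hs hW => Wo_inj hu hv hl hs hW

/-- the main theorem: linear lower bound for the number of predecessors, with the sign -/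
theorem main_linear (a : ℤ) (ha : ¬ (3 : ℤ) ∣ a) :
    ∃ c : ℝ, 0 < c ∧ ∃ X0 : ℝ, ∀ X : ℝ, X0 ≤ X → ∃ S : Finset ℤ,
      (∀ z ∈ S, (|z| : ℤ) ≤ X ∧ (0 < a → 0 < z) ∧ (a < 0 → z < 0) ∧ ∃ k, fT^[k] z = a) ∧
        c * X ≤ S.card :=
  main_linear_of woInjStmt good_class countStmt a ha

theorem S11735 :
    ∀ a : ℤ, ¬ ((3 : ℤ) ∣ a) →
      ∃ c : ℝ, 0 < c ∧ ∃ N₀ : ℕ, ∀ N : ℕ, N₀ ≤ N →
        c * (N : ℝ) <
          (({n : ℤ | |n| ≤ (N : ℤ) ∧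
              ∃ k : ℕ, (fun m : ℤ => if m % 2 = 0 then m / 2 else (3 * m + 1) / 2)^[k] n = a}.ncard : ℕ) : ℝ) :=
  S11735_of woInjStmt good_class countStmt

/-- positive integers -/
theorem linear_nat (a : ℕ) (ha0 : 0 < a) (ha : ¬ 3 ∣ a) :
    ∃ c : ℝ, 0 < c ∧ ∃ X0 : ℝ, ∀ X : ℝ, X0 ≤ X →
      c * X ≤ ({n : ℕ | 0 < n ∧ (n : ℝ) ≤ X ∧
        ∃ k : ℕ, (fun m : ℕ => if m % 2 = 0 then m / 2 else (3 * m + 1) / 2)^[k] n = a}.ncard : ℝ) :=
  linear_nat_of woInjStmt good_class countStmt a ha0 ha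

end Pool.Agent.H320R2.PD
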