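import Pool.Agent.H320R2.PDDefs
import Pool.Agent.H320R2.PDHit

/-! Task 9 (FINAL), part A: endpoints of words, and the linear lower bound from the statements of the
other tasks. -/

set_option autoImplicit false

namespace Pool.Agent.H320R2.PD

open Finset

/-! ### the map -/

theorem fT_even {m : ℤ} (h : m % 2 = 0) : fT m = m / 2 := by simp [fT, h]

theorem fT_odd {m : ℤ} (h : m % 2 ≠ 0) : fT m = (3 * m + 1) / 2 := by simp [fT, h]

theorem fT_two_mul (m : ℤ) : fT (2 * m) = m := by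
  rw [fT_even (by omega)]; omega

theorem fT_halve (e : ℕ) (x : ℤ) : fT^[e] (2 ^ e * x) = x := by
  induction e with
  | zero => simp
  | succ e ih =>
    rw [Function.iterate_succ_apply]
    have : (2 : ℤ) ^ (e + 1) * x = 2 * (2 ^ e * x) := by ring
    rw [this, fT_two_mul, ih]

/-- one letter -/
theorem fT_letter {e : ℕ} (he : 1 ≤ e) {x b : ℤ} (hb : 3 * b + 1 = 2 ^ e * x) : fT^[e] b = x := by
  obtain ⟨e', rfl⟩ : ∃ e', e = e' + 1 := ⟨e - 1, by omega⟩
  have h2 : (2 : ℤ) ^ (e' + 1) * x = 2 * (2 ^ e' * x) := by ring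
  rw [h2] at hb
  rw [Function.iterate_succ_apply, fT_odd (by omega)]
  have : (3 * b + 1) / 2 = 2 ^ e' * x := by omega
  rw [this, fT_halve]

/-- number of odd steps -/
def cod : ℕ → ℤ → ℕ
  | 0, _ => 0
  | k + 1, z => (if z % 2 = 0 then 0 else 1) + cod k (fT z)

theorem cod_add (m n : ℕ) : ∀ z : ℤ, cod (m + n) z = cod m z + cod n (fT^[m] z) := by
  induction m with
  | zero => intro z; simp [cod]
  | succ m ih =>
    intro z
    rw [show m + 1 + n = (m + n) + 1 by ring, cod, cod, ih, Function.iterate_succ_apply]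
    ring

theorem cod_halve (e : ℕ) (x : ℤ) : cod e (2 ^ e * x) = 0 := by
  induction e with
  | zero => simp [cod]
  | succ e ih =>
    have h : (2 : ℤ) ^ (e + 1) * x = 2 * (2 ^ e * x) := by ring
    rw [cod, h, fT_two_mul, ih, if_pos (by omega)]

theorem cod_letter {e : ℕ} (he : 1 ≤ e) {x b : ℤ} (hb : 3 * b + 1 = 2 ^ e * x) : cod e b = 1 := by
  obtain ⟨e', rfl⟩ : ∃ e', e = e' + 1 := ⟨e - 1, by omega⟩
  have h2 : (2 : ℤ) ^ (e' + 1) * x = 2 * (2 ^ e' * x) := by ring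
  rw [h2] at hb
  have h3 : b % 2 ≠ 0 := by omega
  rw [cod, if_neg h3, fT_odd h3]
  have : (3 * b + 1) / 2 = 2 ^ e' * x := by omega
  rw [this, cod_halve]

/-! ### words -/

/-- peeling off the first letter of a valid word -/
theorem word_cons {e : ℕ} {w : List ℕ} {x : ℤ}
    (h : (3 : ℤ) ^ (e :: w).length ∣ 2 ^ (e :: w).sum * x - Wo (e :: w)) :
    ∃ b : ℤ, 3 * b + 1 = 2 ^ e * x ∧ (3 : ℤ) ^ w.length ∣ 2 ^ w.sum * b - Wo w ∧
      (2 ^ (e :: w).sum * x - Wo (e :: w)) / 3 ^ (e :: w).length =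
        (2 ^ w.sum * b - Wo w) / 3 ^ w.length := by
  have e1 : (2 : ℤ) ^ (e :: w).sum * x - Wo (e :: w) =
      2 ^ w.sum * (2 ^ e * x - 1) - 3 * Wo w := by
    simp only [List.sum_cons, Wo]
    push_cast
    ring
  have h3 : (3 : ℤ) ∣ 2 ^ w.sum * (2 ^ e * x - 1) := by
    have h4 : (3 : ℤ) ∣ 2 ^ (e :: w).sum * x - Wo (e :: w) :=
      (dvd_pow_self 3 (by simp)).trans h
    rw [e1] at h4
    exact (dvd_sub_left (Dvd.intro _ rfl)).1 h4
  have h5 : (3 : ℤ) ∣ 2 ^ e * x - 1 := by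
    have hc : IsCoprime (3 : ℤ) (2 ^ w.sum) := IsCoprime.pow_right (by norm_num)
    exact hc.dvd_of_dvd_mul_left h3
  obtain ⟨b, hb⟩ := h5
  refine ⟨b, by linarith, ?_, ?_⟩
  · have h6 : (3 : ℤ) ^ (e :: w).length ∣ 3 * (2 ^ w.sum * b - Wo w) := by
      have : (3 : ℤ) * (2 ^ w.sum * b - Wo w) = 2 ^ w.sum * (2 ^ e * x - 1) - 3 * Wo w := by
        rw [hb]; ring
      rw [this, ← e1]; exact h
    rw [List.length_cons, pow_succ, mul_comm ((3 : ℤ) ^ w.length)] at h6
    exact (mul_dvd_mul_iff_left (by norm_num)).1 h6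
  · have : (2 : ℤ) ^ (e :: w).sum * x - Wo (e :: w) = 3 * (2 ^ w.sum * b - Wo w) := by
      rw [e1, hb]; ring
    rw [this, List.length_cons, pow_succ, mul_comm ((3 : ℤ) ^ w.length)]
    exact Int.mul_ediv_mul_of_pos _ _ (by norm_num)

theorem endpoint_reach {x : ℤ} {w : List ℕ} (hw : ∀ e ∈ w, 1 ≤ e)
    (h : (3 : ℤ) ^ w.length ∣ 2 ^ w.sum * x - Wo w) :
    fT^[w.sum] ((2 ^ w.sum * x - Wo w) / 3 ^ w.length) = x := by
  induction w generalizing x with
  | nil => simp [Wo]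
  | cons e w ih =>
    obtain ⟨b, hb, hd, hq⟩ := word_cons h
    rw [hq, List.sum_cons, Function.iterate_add_apply,
      ih (fun e he => hw e (List.mem_cons_of_mem _ he)) hd]
    exact fT_letter (hw e List.mem_cons_self) hb

theorem endpoint_cod {x : ℤ} {w : List ℕ} (hw : ∀ e ∈ w, 1 ≤ e)
    (h : (3 : ℤ) ^ w.length ∣ 2 ^ w.sum * x - Wo w) :
    cod w.sum ((2 ^ w.sum * x - Wo w) / 3 ^ w.length) = w.length := by
  induction w generalizing x with
  | nil => simp [cod]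
  | cons e w ih =>
    obtain ⟨b, hb, hd, hq⟩ := word_cons h
    have hw' : ∀ e ∈ w, 1 ≤ e := fun e he => hw e (List.mem_cons_of_mem _ he)
    rw [hq, List.sum_cons, add_comm e, cod_add, ih hw' hd, endpoint_reach hw' hd,
      cod_letter (hw e List.mem_cons_self) hb, List.length_cons]

/-- endpoints are distinct when the root is not periodic (needs injectivity of the offset) -/
theorem endpoint_inj_of
    (Wo_inj : ∀ {u v : List ℕ}, (∀ e ∈ u, 1 ≤ e) → (∀ e ∈ v, 1 ≤ e) → u.length = v.length →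
      u.sum = v.sum → Wo u = Wo v → u = v)
    {x : ℤ} (hx : ∀ k, 1 ≤ k → fT^[k] x ≠ x) {w w' : List ℕ}
    (hw : ∀ e ∈ w, 1 ≤ e) (hw' : ∀ e ∈ w', 1 ≤ e)
    (h : (3 : ℤ) ^ w.length ∣ 2 ^ w.sum * x - Wo w)
    (h' : (3 : ℤ) ^ w'.length ∣ 2 ^ w'.sum * x - Wo w')
    (he : (2 ^ w.sum * x - Wo w) / 3 ^ w.length = (2 ^ w'.sum * x - Wo w') / 3 ^ w'.length) :
    w = w' := by
  have r := endpoint_reach hw h
  have r' := endpoint_reach hw' h'
  have c := endpoint_cod hw h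
  have c' := endpoint_cod hw' h'
  rw [he] at r c
  have hs : w.sum = w'.sum := by
    rcases lt_trichotomy w.sum w'.sum with hlt | heq | hgt
    · exfalso
      obtain ⟨d, hd⟩ : ∃ d, w'.sum = d + w.sum := ⟨w'.sum - w.sum, by omega⟩
      rw [hd, Function.iterate_add_apply] at r'
      rw [hd] at r
      rw [r] at r'
      exact hx d (by omega) r'
    · exact heq
    · exfalso
      obtain ⟨d, hd⟩ : ∃ d, w.sum = d + w'.sum := ⟨w.sum - w'.sum, by omega⟩
      rw [hd, Function.iterate_add_apply, r'] at r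
      exact hx d (by omega) r
  rw [hs, c'] at c
  have hW : (Wo w : ℤ) = Wo w' := by
    have e1 := Int.ediv_mul_cancel h
    have e2 := Int.ediv_mul_cancel h'
    rw [he, c.symm, e2, hs] at e1
    linarith
  exact Wo_inj hw hw' c.symm hs (by exact_mod_cast hW)

end Pool.Agent.H320R2.PD
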