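import Pool.Agent.H320R2.PDDefs
import Pool.Agent.H320R2.PDWords

/-!
Task 6 (POSITIVITY) of the positive density theorem, part 1: everything except the quenched
inequality, which enters as a hypothesis of `good_class_of`.
-/

set_option autoImplicit false

namespace Pool.Agent.H320R2.PD

open Finset

/-- periodicity of `U` -/
theorem U_congr (N0 A N : ℕ) {x r : ℤ} (h : (3 : ℤ) ^ N ∣ x - r) (f : ℕ → ℝ) :
    U N0 A N x f = U N0 A N r f := by
  classical
  unfold U
  refine Finset.sum_congr ?_ fun _ _ => rfl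
  ext w
  simp only [Finset.mem_filter, and_congr_right_iff]
  intro _ _
  have h2 : (2 : ℤ) ^ w.sum * x - Wo w = (2 ^ w.sum * r - Wo w) + 2 ^ w.sum * (x - r) := by ring
  rw [h2]
  exact dvd_add_left (Dvd.dvd.mul_left h _)

/-- independence of the cut-off `A` -/
theorem U_indep {N0 A N : ℕ} (hN0 : N0 ≤ N) (hA : 3 * N ≤ A) (x : ℤ) (f : ℕ → ℝ) :
    U N0 A N x f = U N0 (3 * N) N x f := by
  classical
  unfold U
  refine Finset.sum_congr ?_ fun _ _ => rfl
  ext w
  simp only [Finset.mem_filter, mem_FW]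
  constructor
  · rintro ⟨⟨hl, he⟩, hn, hd⟩
    refine ⟨⟨hl, fun e hew => ⟨(he e hew).1, ?_⟩⟩, hn, hd⟩
    have h1 := (hn N hN0 (by omega)).2
    rw [List.take_of_length_le (by omega)] at h1
    have h2 : e ≤ w.sum := List.single_le_sum (fun _ _ => Nat.zero_le _) e hew
    omega
  · rintro ⟨⟨hl, he⟩, hn, hd⟩
    exact ⟨⟨hl, fun e hew => ⟨(he e hew).1, le_trans (he e hew).2 hA⟩⟩, hn, hd⟩

open scoped Classical in
/-- the Haar average of `U` -/
theorem U_haar (N0 A N : ℕ) :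
    ∑ x ∈ range (3 ^ N), U N0 A N (x : ℤ) (fun _ => 1)
      = 3 ^ N * ∑ w ∈ (FW A N).filter (fun w => Nice N0 w), wwt w := by
  unfold U
  have h1 : ∀ x : ℕ, (∑ w ∈ (FW A N).filter
        (fun w => Nice N0 w ∧ (3 : ℤ) ^ N ∣ 2 ^ w.sum * (x : ℤ) - Wo w),
          (3 : ℝ) ^ N / 2 ^ w.sum * 1)
      = ∑ w ∈ (FW A N).filter (fun w => Nice N0 w),
          if (3 : ℤ) ^ N ∣ 2 ^ w.sum * (x : ℤ) - Wo w then (3 : ℝ) ^ N / 2 ^ w.sum else 0 := by
    intro x
    rw [← Finset.filter_filter, Finset.sum_filter]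
    simp
  rw [Finset.sum_congr rfl fun x _ => h1 x, Finset.sum_comm, Finset.mul_sum]
  refine Finset.sum_congr rfl fun w _ => ?_
  rw [← Finset.sum_filter, Finset.sum_const, unique_class N w.sum (Wo w)]
  simp [wwt, div_eq_mul_inv]

open scoped Classical in
/-- the mass of the words whose prefix of length `i` is atypical -/
theorem bad_prefix (A N i : ℕ) (hi : i ≤ N) :
    ∑ w ∈ (FW A N).filter (fun w =>
        ¬ (39 * i ≤ 20 * (w.take i).sum ∧ 20 * (w.take i).sum ≤ 41 * i)), wwt w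
      ≤ 2 * Real.exp (-((i : ℝ) / 12800)) := by
  obtain ⟨m, rfl⟩ : ∃ m, N = i + m := ⟨N - i, by omega⟩
  rw [Finset.sum_filter, sum_FW_add]
  have h1 : ∀ u ∈ FW A i, (∑ v ∈ FW A m,
      if ¬ (39 * i ≤ 20 * ((u ++ v).take i).sum ∧ 20 * ((u ++ v).take i).sum ≤ 41 * i)
        then wwt (u ++ v) else 0)
      ≤ if (1 / 20 : ℝ) * i ≤ |(u.sum : ℝ) - 2 * i| then wwt u else 0 := by
    intro u hu
    have hl : u.length = i := (mem_FW.mp hu).1
    have ht : ∀ v : List ℕ, (u ++ v).take i = u := by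
      intro v
      rw [List.take_append_of_le_length (by omega), List.take_of_length_le (by omega)]
    simp only [ht]
    have hu0 : 0 ≤ wwt u := by unfold wwt; positivity
    by_cases hb : (39 * i ≤ 20 * u.sum ∧ 20 * u.sum ≤ 41 * i)
    · simp only [hb, not_true_eq_false, if_false, Finset.sum_const_zero, and_self]
      split_ifs <;> simp [hu0]
    · have hb' : (1 / 20 : ℝ) * i ≤ |(u.sum : ℝ) - 2 * i| := by
        rw [not_and_or, not_le, not_le] at hb
        rcases hb with hb | hb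
        · have : (20 * u.sum : ℝ) < 39 * i := by exact_mod_cast hb
          rw [abs_sub_comm]
          refine le_trans ?_ (le_abs_self _)
          linarith
        · have : (41 * i : ℝ) < 20 * u.sum := by exact_mod_cast hb
          refine le_trans ?_ (le_abs_self _)
          linarith
      simp only [hb, not_false_eq_true, if_true, hb']
      calc ∑ v ∈ FW A m, wwt (u ++ v) = wwt u * ∑ v ∈ FW A m, wwt v := by
            rw [Finset.mul_sum]
            exact Finset.sum_congr rfl fun v _ => wwt_append u v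
        _ ≤ wwt u * 1 := mul_le_mul_of_nonneg_left (sum_wwt_le A m) hu0
        _ = wwt u := mul_one _
  refine le_trans (Finset.sum_le_sum h1) ?_
  rw [← Finset.sum_filter]
  refine le_trans (tail A i (by norm_num) (by norm_num)) ?_
  have : ((1 / 20 : ℝ) ^ 2 * i / 32) = (i : ℝ) / 12800 := by ring
  rw [this]

open scoped Classical in
theorem not_nice (N0 A N : ℕ) :
    ∑ w ∈ (FW A N).filter (fun w => ¬ Nice N0 w), wwt w
      ≤ ∑ i ∈ Icc N0 N, 2 * Real.exp (-((i : ℝ) / 12800)) := by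
  have h0 : ∀ w : List ℕ, 0 ≤ wwt w := fun w => by unfold wwt; positivity
  calc ∑ w ∈ (FW A N).filter (fun w => ¬ Nice N0 w), wwt w
      ≤ ∑ w ∈ FW A N, ∑ i ∈ Icc N0 N,
        if ¬ (39 * i ≤ 20 * (w.take i).sum ∧ 20 * (w.take i).sum ≤ 41 * i) then wwt w else 0 := by
        rw [Finset.sum_filter]
        refine Finset.sum_le_sum fun w hw1 => ?_
        have hnn : ∀ i ∈ Icc N0 N, 0 ≤
            (if ¬ (39 * i ≤ 20 * (w.take i).sum ∧ 20 * (w.take i).sum ≤ 41 * i)
              then wwt w else 0) := by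
          intro i _
          split_ifs
          · exact le_rfl
          · exact h0 w
        by_cases hw2 : Nice N0 w
        · simp only [hw2, not_true_eq_false, if_false]
          exact Finset.sum_nonneg hnn
        · simp only [hw2, not_false_eq_true, if_true]
          have hl : w.length = N := (mem_FW.mp hw1).1
          unfold Nice at hw2
          push Not at hw2
          obtain ⟨i, hi0, hi1, hi2⟩ := hw2
          have hb : ¬ (39 * i ≤ 20 * (w.take i).sum ∧ 20 * (w.take i).sum ≤ 41 * i) := by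
            intro hh
            have := hi2 hh.1
            omega
          have := Finset.single_le_sum hnn (Finset.mem_Icc.mpr ⟨hi0, by omega⟩)
          rwa [if_pos hb] at this
    _ = ∑ i ∈ Icc N0 N, ∑ w ∈ (FW A N).filter (fun w =>
        ¬ (39 * i ≤ 20 * (w.take i).sum ∧ 20 * (w.take i).sum ≤ 41 * i)), wwt w := by
        rw [Finset.sum_comm]
        exact Finset.sum_congr rfl fun i _ => (Finset.sum_filter _ _).symm
    _ ≤ _ := Finset.sum_le_sum fun i hi => bad_prefix A N i (Finset.mem_Icc.mp hi).2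

theorem exists_tail {g : ℕ → ℝ} (hg : Summable g) {ε : ℝ} (hε : 0 < ε) :
    ∃ N0 : ℕ, ∀ t : Finset ℕ, (∀ i ∈ t, N0 ≤ i) → ∑ i ∈ t, g i ≤ ε := by
  obtain ⟨s, hs⟩ := summable_iff_vanishing_norm.mp hg ε hε
  refine ⟨s.sup id + 1, fun t ht => ?_⟩
  refine le_trans (le_abs_self _) (le_of_lt (hs t ?_))
  rw [Finset.disjoint_left]
  intro i hi his
  have h1 := ht i hi
  have h2 : i ≤ s.sup id := Finset.le_sup (f := id) his
  omega

theorem pow_bound {n m A : ℕ} (hn : 2 ≤ n) (hm : m ≤ n) (hA : 3 * n ≤ A) :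
    (15 / 16 : ℝ) ≤ (1 - (1 / 2 : ℝ) ^ A) ^ m := by
  have h1 : (1 / 2 : ℝ) ^ A ≤ (1 / 2) ^ (3 * n) :=
    pow_le_pow_of_le_one (by norm_num) (by norm_num) hA
  have h2 : (n : ℝ) ≤ 2 ^ n := by exact_mod_cast (Nat.lt_two_pow_self (n := n)).le
  have h3 : (m : ℝ) ≤ 2 ^ n := le_trans (by exact_mod_cast hm) h2
  have h4 : (m : ℝ) * (1 / 2 : ℝ) ^ A ≤ 1 / 16 := by
    calc (m : ℝ) * (1 / 2 : ℝ) ^ A ≤ 2 ^ n * (1 / 2) ^ (3 * n) := by
          apply mul_le_mul h3 h1 (by positivity) (by positivity)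
      _ = (1 / 2) ^ (2 * n) := by
          rw [show 3 * n = n + 2 * n by ring, pow_add (1 / 2 : ℝ) n (2 * n), ← mul_assoc, ← mul_pow]
          norm_num
      _ ≤ (1 / 2) ^ 4 := pow_le_pow_of_le_one (by norm_num) (by norm_num) (by omega)
      _ = 1 / 16 := by norm_num
  have h5 : (-2 : ℝ) ≤ -(1 / 2 : ℝ) ^ A := by
    have : (1 / 2 : ℝ) ^ A ≤ 1 := pow_le_one₀ (by norm_num) (by norm_num)
    linarith
  have h6 := one_add_mul_le_pow h5 m
  have h7 : (1 + -(1 / 2 : ℝ) ^ A) = 1 - (1 / 2 : ℝ) ^ A := by ring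
  rw [h7] at h6
  linarith

/-- the conclusion of the quenched inequality -/
def QuenchedStatement : Prop :=
  ∀ N0 : ℕ, ∃ N1 : ℕ, ∃ C : ℝ, 0 < C ∧ ∀ n : ℕ, N1 ≤ n → ∀ A : ℕ, 3 * (n + 1) ≤ A →
    ∀ x : ℤ, ∀ B : ℝ, 0 ≤ B → ∀ f : ℕ → ℝ, (∀ t, 0 ≤ f t ∧ f t ≤ B) →
      U N0 A n x (fun t => ∑ e ∈ Icc 1 A, (1 / 2 : ℝ) ^ e * f (t + e))
        ≤ U N0 A (n + 1) x f + B * C / (n : ℝ) ^ 3

theorem sum_half (A : ℕ) : ∑ e ∈ Icc 1 A, (1 / 2 : ℝ) ^ e = 1 - (1 / 2) ^ A := by
  induction A with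
  | zero => simp
  | succ A ih =>
    rw [Finset.sum_Icc_succ_top (by omega), ih, pow_succ]
    ring

theorem U_const (N0 A n : ℕ) (x : ℤ) (c : ℝ) :
    U N0 A n x (fun _ => c) = c * U N0 A n x (fun _ => 1) := by
  classical
  unfold U
  rw [Finset.mul_sum]
  exact Finset.sum_congr rfl fun w _ => by ring

theorem good_class_of (hq : QuenchedStatement) :
    ∃ (N0 N : ℕ) (r : ℤ), N0 ≤ N ∧ 1 ≤ N ∧ ¬ (3 : ℤ) ∣ r ∧
    ∀ x : ℤ, (3 : ℤ) ^ N ∣ x - r → ∀ A n : ℕ, N ≤ n → 3 * n ≤ A →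
      (1 / 4 : ℝ) ≤ U N0 A n x (fun _ => 1) := by
  classical
  -- choice of `N0`
  have hs1 : Summable (fun i : ℕ => 2 * Real.exp (-((i : ℝ) / 12800))) := by
    apply Summable.mul_left
    have h : (fun i : ℕ => Real.exp (-((i : ℝ) / 12800)))
        = fun i : ℕ => (Real.exp (-(1 / 12800))) ^ i := by
      funext i
      rw [← Real.exp_nat_mul]
      congr 1
      ring
    rw [h]
    exact summable_geometric_of_lt_one (Real.exp_pos _).le (Real.exp_lt_one_iff.mpr (by norm_num))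
  obtain ⟨N0, hN0⟩ := exists_tail hs1 (ε := 1 / 8) (by norm_num)
  obtain ⟨N1, C, hC, hq⟩ := hq N0
  have hs2 : Summable (fun n : ℕ => C / (n : ℝ) ^ 3) := by
    have : Summable (fun n : ℕ => 1 / (n : ℝ) ^ 3) :=
      Real.summable_one_div_nat_pow.mpr (by norm_num)
    simpa [div_eq_mul_inv] using this.mul_left C
  obtain ⟨N2, hN2⟩ := exists_tail hs2 (ε := 1 / 8) (by norm_num)
  obtain ⟨N, hNdef⟩ : ∃ N, N = N0 + N1 + N2 + 2 := ⟨_, rfl⟩
  have hNN0 : N0 ≤ N := by omega
  -- the Haar average at level `N`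
  have hmass : (1 / 2 : ℝ) ≤ ∑ w ∈ (FW (3 * N) N).filter (fun w => Nice N0 w), wwt w := by
    have h1 := Finset.sum_filter_add_sum_filter_not (FW (3 * N) N) (fun w => Nice N0 w) wwt
    have h2 := not_nice N0 (3 * N) N
    have h3 := hN0 (Icc N0 N) (fun i hi => (Finset.mem_Icc.mp hi).1)
    have h4 := sum_wwt (3 * N) N
    have h5 := pow_bound (n := N) (m := N) (A := 3 * N) (by omega) le_rfl le_rfl
    linarith
  obtain ⟨r0, hr0, hr⟩ : ∃ r0 ∈ range (3 ^ N), (1 / 2 : ℝ) ≤ U N0 (3 * N) N (r0 : ℤ) (fun _ => 1) := by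
    apply Finset.exists_le_of_sum_le (s := range (3 ^ N)) (f := fun _ => (1 / 2 : ℝ))
      ⟨0, by simp⟩
    rw [U_haar, Finset.sum_const, Finset.card_range, nsmul_eq_mul]
    push_cast
    exact mul_le_mul_of_nonneg_left hmass (by positivity)
  refine ⟨N0, N, r0, hNN0, by omega, ?_, ?_⟩
  · -- `r` is prime to 3
    intro h3
    have hpos : 0 < U N0 (3 * N) N (r0 : ℤ) (fun _ => 1) := by linarith
    unfold U at hpos
    obtain ⟨w, hw, -⟩ := Finset.exists_ne_zero_of_sum_ne_zero hpos.ne'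
    rw [Finset.mem_filter, mem_FW] at hw
    obtain ⟨⟨hl, -⟩, -, hd⟩ := hw
    have hne : w ≠ [] := by
      rintro rfl
      simp at hl
      omega
    apply Wo_mod3 hne
    have h31 : (3 : ℤ) ∣ 3 ^ N := dvd_pow_self 3 (by omega)
    have h32 : (3 : ℤ) ∣ 2 ^ w.sum * (r0 : ℤ) - Wo w := h31.trans hd
    have h33 : (3 : ℤ) ∣ 2 ^ w.sum * (r0 : ℤ) := Dvd.dvd.mul_left h3 _
    have := dvd_sub h33 h32
    simpa using this
  · intro x hx A n hn hA
    have hN' : (1 / 2 : ℝ) ≤ U N0 A N x (fun _ => 1) := by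
      rw [U_congr N0 A N hx, U_indep hNN0 (by omega)]
      exact hr
    have hδ : 0 ≤ 1 - (1 / 2 : ℝ) ^ A := by
      have : (1 / 2 : ℝ) ^ A ≤ 1 := pow_le_one₀ (by norm_num) (by norm_num)
      linarith
    have hδ1 : 1 - (1 / 2 : ℝ) ^ A ≤ 1 := by
      have : 0 ≤ (1 / 2 : ℝ) ^ A := by positivity
      linarith
    have key : ∀ m, N ≤ m → m ≤ n →
        (1 - (1 / 2 : ℝ) ^ A) ^ (m - N) * U N0 A N x (fun _ => 1)
          - ∑ j ∈ Ico N m, C / (j : ℝ) ^ 3 ≤ U N0 A m x (fun _ => 1) := by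
      intro m hm
      induction m, hm using Nat.le_induction with
      | base => intro _; simp
      | succ m hm ih =>
        intro hmn
        have ih' := ih (by omega)
        have h1 := hq m (by omega) A (by omega) x 1 (by norm_num) (fun _ => 1)
          (fun t => ⟨by norm_num, le_rfl⟩)
        simp only [mul_one] at h1
        rw [sum_half, U_const, one_mul] at h1
        have h2 := mul_le_mul_of_nonneg_left ih' hδ
        have h3 : 0 ≤ ∑ j ∈ Ico N m, C / (j : ℝ) ^ 3 :=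
          Finset.sum_nonneg fun j _ => by positivity
        rw [Finset.sum_Ico_succ_top hm, show m + 1 - N = (m - N) + 1 by omega, pow_succ]
        nlinarith [mul_le_mul_of_nonneg_right hδ1 h3]
    have h1 := key n hn le_rfl
    have h2 := pow_bound (n := n) (m := n - N) (A := A) (by omega) (by omega) hA
    have h3 := hN2 (Ico N n) (fun i hi => by have := (Finset.mem_Ico.mp hi).1; omega)
    have h4 : (15 / 16 : ℝ) * (1 / 2) ≤ (1 - (1 / 2 : ℝ) ^ A) ^ (n - N) * U N0 A N x (fun _ => 1) :=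
      mul_le_mul h2 hN' (by norm_num) (by positivity)
    linarith

end Pool.Agent.H320R2.PD
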