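import Pool.Agent.H320R2.PDQ2

/-!
Quenched estimates, part 3: the one step inequality for words which are nice up to `a` and then
free for `m` letters.
-/

set_option autoImplicit false
set_option linter.unusedVariables false

namespace Pool.Agent.H320R2.PD

open Finset Real

/-! ### the norm form -/

/-- norm form of the Eisenstein integers -/
def N3 (a b c : ℝ) : ℝ := a ^ 2 + b ^ 2 + c ^ 2 - a * b - b * c - c * a

lemma N3_nonneg (a b c : ℝ) : 0 ≤ N3 a b c := by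
  unfold N3
  nlinarith [sq_nonneg (a - b), sq_nonneg (b - c), sq_nonneg (c - a)]

lemma N3_F3 {a b c : ℝ} (ha : 0 ≤ a) (hb : 0 ≤ b) (hc : 0 ≤ c) :
    N3 a b c = F3 a b c * (a + b + c) := by
  unfold N3 F3
  rcases (add_nonneg (add_nonneg ha hb) hc).eq_or_lt with h | h
  · have h1 : a = 0 := by linarith
    have h2 : b = 0 := by linarith
    have h3 : c = 0 := by linarith
    rw [h1, h2, h3]; simp
  · rw [div_mul_cancel₀ _ h.ne']

lemma le_N3_b (a b c : ℝ) : a + b + c - 3 * b ≤ 2 * √(N3 a b c) := by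
  have h : ((a + b + c - 3 * b) / 2) ^ 2 ≤ N3 a b c := by
    unfold N3
    nlinarith [sq_nonneg (a - c)]
  have := (Real.le_sqrt' (x := (a + b + c - 3 * b) / 2) (y := N3 a b c))
  have h1 := Real.abs_le_sqrt h
  have h2 := le_abs_self ((a + b + c - 3 * b) / 2)
  linarith

lemma le_N3_c (a b c : ℝ) : a + b + c - 3 * c ≤ 2 * √(N3 a b c) := by
  have h : ((a + b + c - 3 * c) / 2) ^ 2 ≤ N3 a b c := by
    unfold N3
    nlinarith [sq_nonneg (a - b)]
  have h1 := Real.abs_le_sqrt h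
  have h2 := le_abs_self ((a + b + c - 3 * c) / 2)
  linarith

/-! ### digits -/

lemma ind_three (n : ℕ) (z : ℤ) (r : ℝ) :
    (if (3 : ℤ) ^ n ∣ z then r else 0) = (if (3 : ℤ) ^ (n + 1) ∣ z then r else 0)
      + (if (3 : ℤ) ^ (n + 1) ∣ z - 3 ^ n then r else 0)
      + (if (3 : ℤ) ^ (n + 1) ∣ z - 2 * 3 ^ n then r else 0) := by
  have h3 : (3 : ℤ) ^ n ≠ 0 := by positivity
  by_cases h : (3 : ℤ) ^ n ∣ z
  · obtain ⟨d, rfl⟩ := h
    rw [if_pos (dvd_mul_right _ _)]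
    have e0 : (3 : ℤ) ^ (n + 1) ∣ 3 ^ n * d ↔ (3 : ℤ) ∣ d := by
      rw [pow_succ, mul_dvd_mul_iff_left h3]
    have e1 : (3 : ℤ) ^ (n + 1) ∣ 3 ^ n * d - 3 ^ n ↔ (3 : ℤ) ∣ d - 1 := by
      rw [pow_succ, show (3 : ℤ) ^ n * d - 3 ^ n = 3 ^ n * (d - 1) by ring,
        mul_dvd_mul_iff_left h3]
    have e2 : (3 : ℤ) ^ (n + 1) ∣ 3 ^ n * d - 2 * 3 ^ n ↔ (3 : ℤ) ∣ d - 2 := by
      rw [pow_succ, show (3 : ℤ) ^ n * d - 2 * 3 ^ n = 3 ^ n * (d - 2) by ring,
        mul_dvd_mul_iff_left h3]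
    simp only [e0, e1, e2]
    have : d % 3 = 0 ∨ d % 3 = 1 ∨ d % 3 = 2 := by omega
    rcases this with h | h | h
    · rw [if_pos (by omega), if_neg (by omega), if_neg (by omega)]; simp
    · rw [if_neg (by omega), if_pos (by omega), if_neg (by omega)]; simp
    · rw [if_neg (by omega), if_neg (by omega), if_pos (by omega)]; simp
  · rw [if_neg h, if_neg, if_neg, if_neg]
    · simp
    · intro h1
      have h2 : (3 : ℤ) ^ n ∣ z - 2 * 3 ^ n := (pow_dvd_pow 3 (Nat.le_succ n)).trans h1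
      exact h ((Int.dvd_iff_dvd_of_dvd_sub (show (3 : ℤ) ^ n ∣ (z - 2 * 3 ^ n) - z from
        ⟨-2, by ring⟩)).1 h2)
    · intro h1
      have h2 : (3 : ℤ) ^ n ∣ z - 3 ^ n := (pow_dvd_pow 3 (Nat.le_succ n)).trans h1
      exact h ((Int.dvd_iff_dvd_of_dvd_sub (show (3 : ℤ) ^ n ∣ (z - 3 ^ n) - z from
        ⟨-1, by ring⟩)).1 h2)
    · intro h1
      exact h ((pow_dvd_pow 3 (Nat.le_succ n)).trans h1)

open scoped Classical in
lemma qcnt_split {ι : Type*} (s : Finset ι) (wt : ι → ℝ) (v : ι → ℤ) (n : ℕ) (c : ℤ) :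
    cnt s wt v n c = cnt s wt v (n + 1) c + cnt s wt v (n + 1) (c + 3 ^ n)
      + cnt s wt v (n + 1) (c + 2 * 3 ^ n) := by
  unfold cnt
  rw [← Finset.sum_add_distrib, ← Finset.sum_add_distrib]
  refine Finset.sum_congr rfl fun i _ => ?_
  have := ind_three n (v i - c) (wt i)
  rw [sub_sub, sub_sub] at this
  convert this using 3

open scoped Classical in
lemma qcnt_nonneg {ι : Type*} {s : Finset ι} {wt : ι → ℝ} (v : ι → ℤ) (n : ℕ) (c : ℤ)
    (h : ∀ i ∈ s, 0 ≤ wt i) : 0 ≤ cnt s wt v n c := by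
  unfold cnt
  apply Finset.sum_nonneg
  intro i hi
  split_ifs
  · exact h i hi
  · exact le_rfl

lemma two_pow_mod (e : ℕ) : ∃ q : ℤ, (2 : ℤ) ^ e = 3 * q + (if e % 2 = 0 then 1 else 2) := by
  induction e with
  | zero => exact ⟨0, by norm_num⟩
  | succ e ih =>
    obtain ⟨q, hq⟩ := ih
    rw [pow_succ, hq]
    rcases Nat.mod_two_eq_zero_or_one e with h | h
    · have h1 : (e + 1) % 2 = 1 := by omega
      rw [h, h1]
      exact ⟨2 * q, by norm_num; ring⟩
    · have h1 : (e + 1) % 2 = 0 := by omega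
      rw [h, h1]
      exact ⟨2 * q + 1, by norm_num; ring⟩

/-- residue needed to append the letter `e` -/
def ce (n e : ℕ) : ℤ := if e % 2 = 0 then 2 * 3 ^ n else 3 ^ n

lemma valid_snoc (n e : ℕ) (v : ℤ) : (3 : ℤ) ^ (n + 1) ∣ 2 ^ e * v + 3 ^ n ↔
    (3 : ℤ) ^ (n + 1) ∣ v - ce n e := by
  have h3 : (3 : ℤ) ^ n ≠ 0 := by positivity
  have hle : (3 : ℤ) ^ n ∣ 3 ^ (n + 1) := pow_dvd_pow 3 (Nat.le_succ n)
  by_cases h : (3 : ℤ) ^ n ∣ v
  · obtain ⟨d, rfl⟩ := h
    obtain ⟨q, hq⟩ := two_pow_mod e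
    rw [hq]
    unfold ce
    rcases Nat.mod_two_eq_zero_or_one e with h | h
    · rw [h]
      simp only [if_true]
      rw [show (3 * q + 1) * (3 ^ n * d) + 3 ^ n = 3 ^ n * (3 * (q * d) + d + 1) by ring,
        show (3 : ℤ) ^ n * d - 2 * 3 ^ n = 3 ^ n * (d - 2) by ring, pow_succ,
        mul_dvd_mul_iff_left h3, mul_dvd_mul_iff_left h3]
      generalize q * d = y
      omega
    · rw [h]
      simp only [if_neg (show ¬ (1 = 0) by norm_num)]
      rw [show (3 * q + 2) * (3 ^ n * d) + 3 ^ n = 3 ^ n * (3 * (q * d) + 2 * d + 1) by ring,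
        show (3 : ℤ) ^ n * d - 3 ^ n = 3 ^ n * (d - 1) by ring, pow_succ,
        mul_dvd_mul_iff_left h3, mul_dvd_mul_iff_left h3]
      generalize q * d = y
      omega
  · constructor
    · intro h1
      exfalso
      apply h
      have h2 : (3 : ℤ) ^ n ∣ 2 ^ e * v := by
        have := dvd_sub (hle.trans h1) (dvd_refl ((3 : ℤ) ^ n))
        rwa [add_sub_cancel_right] at this
      exact two_pow_dvd_cancel h2
    · intro h1
      exfalso
      apply h
      have hce : (3 : ℤ) ^ n ∣ ce n e := by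
        unfold ce
        split_ifs
        · exact dvd_mul_left _ _
        · exact dvd_refl _
      have := dvd_add (hle.trans h1) hce
      rwa [sub_add_cancel] at this

/-- a class minus three times one of its subclasses -/
lemma step_le {ι : Type*} {s : Finset ι} {wt : ι → ℝ} (v : ι → ℤ) (n e : ℕ)
    (h : ∀ i ∈ s, 0 ≤ wt i) :
    cnt s wt v n 0 - 3 * cnt s wt v (n + 1) (ce n e)
      ≤ 2 * √(N3 (cnt s wt v (n + 1) 0) (cnt s wt v (n + 1) (0 + 3 ^ n))
        (cnt s wt v (n + 1) (0 + 2 * 3 ^ n))) := by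
  rw [qcnt_split s wt v n 0]
  unfold ce
  split_ifs
  · have := le_N3_c (cnt s wt v (n + 1) 0) (cnt s wt v (n + 1) (0 + 3 ^ n))
      (cnt s wt v (n + 1) (0 + 2 * 3 ^ n))
    rw [zero_add] at this ⊢
    rw [zero_add] at this ⊢
    exact this
  · have := le_N3_b (cnt s wt v (n + 1) 0) (cnt s wt v (n + 1) (0 + 3 ^ n))
      (cnt s wt v (n + 1) (0 + 2 * 3 ^ n))
    rw [zero_add] at this ⊢
    rw [zero_add] at this ⊢
    exact this

end Pool.Agent.H320R2.PD
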