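import Pool.Agent.H320R2.PDF3
import Pool.Agent.H320R2.PDWords

/-!
Positive density theorem: recursion for the annealed nonuniformity.
-/

set_option autoImplicit false
set_option linter.unusedVariables false

namespace Pool.Agent.H320R2.PD

open Finset Real

theorem gam_nonneg (A k j : ℕ) : 0 ≤ gam A k j :=
  Finset.sum_nonneg fun T _ => Gam_nonneg _ _ fun w _ => (wwt_pos w).le

theorem gam_le_one (A k j : ℕ) : gam A k j ≤ 1 := by
  unfold gam
  have h1 : ∑ T ∈ range (k * A + 1), Gam (FWT A k T) wwt (fun w => (Wo w : ℤ)) j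
      ≤ ∑ T ∈ range (k * A + 1), ∑ w ∈ FWT A k T, wwt w :=
    Finset.sum_le_sum fun T _ => Gam_le _ _ fun w _ => (wwt_pos w).le
  refine h1.trans ?_
  have hmaps : ∀ w ∈ FW A k, w.sum ∈ range (k * A + 1) := by
    intro w hw
    rw [mem_range]
    have := (sum_le_of_mem hw).2
    omega
  have h2 : ∑ T ∈ range (k * A + 1), ∑ w ∈ FWT A k T, wwt w = ∑ w ∈ FW A k, wwt w :=
    Finset.sum_fiberwise_of_maps_to hmaps wwt
  rw [h2]
  exact sum_wwt_le A k

lemma sum_pairs (A k₁ k₂ T : ℕ) (G : List ℕ → List ℕ → ℝ) :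
    ∑ u ∈ FW A k₁, ∑ v ∈ FW A k₂, (if u.sum + v.sum = T then G u v else 0)
      = ∑ p ∈ (range (k₁ * A + 1) ×ˢ range (k₂ * A + 1)).filter (fun p => p.1 + p.2 = T),
          ∑ q ∈ FWT A k₁ p.1 ×ˢ FWT A k₂ p.2, G q.1 q.2 := by
  have h0 : ∑ u ∈ FW A k₁, ∑ v ∈ FW A k₂, (if u.sum + v.sum = T then G u v else 0)
      = ∑ q ∈ (FW A k₁ ×ˢ FW A k₂).filter (fun q => q.1.sum + q.2.sum = T), G q.1 q.2 := by
    rw [Finset.sum_filter, Finset.sum_product]
  rw [h0]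
  have hmaps : ∀ q ∈ (FW A k₁ ×ˢ FW A k₂).filter (fun q => q.1.sum + q.2.sum = T),
      (q.1.sum, q.2.sum) ∈ (range (k₁ * A + 1) ×ˢ range (k₂ * A + 1)).filter
        (fun p => p.1 + p.2 = T) := by
    intro q hq
    rw [Finset.mem_filter, Finset.mem_product] at hq
    rw [Finset.mem_filter, Finset.mem_product, mem_range, mem_range]
    have h1 := (sum_le_of_mem hq.1.1).2
    have h2 := (sum_le_of_mem hq.1.2).2
    exact ⟨⟨by omega, by omega⟩, hq.2⟩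
  rw [← Finset.sum_fiberwise_of_maps_to hmaps]
  refine Finset.sum_congr rfl fun p hp => ?_
  rw [Finset.mem_filter] at hp
  refine Finset.sum_congr ?_ fun _ _ => rfl
  ext q
  simp only [Finset.mem_filter, Finset.mem_product, FWT]
  constructor
  · rintro ⟨⟨⟨h1, h2⟩, h3⟩, h4⟩
    have e1 : q.1.sum = p.1 := congrArg Prod.fst h4
    have e2 : q.2.sum = p.2 := congrArg Prod.snd h4
    exact ⟨⟨h1, e1⟩, ⟨h2, e2⟩⟩
  · rintro ⟨⟨h1, e1⟩, ⟨h2, e2⟩⟩
    refine ⟨⟨⟨h1, h2⟩, by rw [e1, e2]; exact hp.2⟩, Prod.ext e1 e2⟩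

open scoped Classical in
lemma cnt_pairs (A k₁ k₂ T M : ℕ) (c : ℤ) :
    cnt (FWT A (k₁ + k₂) T) wwt (fun w => (Wo w : ℤ)) M c
      = ∑ p ∈ (range (k₁ * A + 1) ×ˢ range (k₂ * A + 1)).filter (fun p => p.1 + p.2 = T),
          cnt (FWT A k₁ p.1 ×ˢ FWT A k₂ p.2) (fun q => wwt q.1 * wwt q.2)
            (fun q => 2 ^ p.2 * (Wo q.1 : ℤ) + 3 ^ k₁ * (Wo q.2 : ℤ)) M c := by
  have h1 : cnt (FWT A (k₁ + k₂) T) wwt (fun w => (Wo w : ℤ)) M c
      = ∑ u ∈ FW A k₁, ∑ v ∈ FW A k₂, (if u.sum + v.sum = T then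
          (if (3 : ℤ) ^ M ∣ (Wo (u ++ v) : ℤ) - c then wwt u * wwt v else 0) else 0) := by
    unfold cnt FWT
    rw [Finset.sum_filter, sum_FW_add]
    refine Finset.sum_congr rfl fun u _ => Finset.sum_congr rfl fun v _ => ?_
    rw [List.sum_append, wwt_append]
  rw [h1, sum_pairs A k₁ k₂ T
    (fun u v => if (3 : ℤ) ^ M ∣ (Wo (u ++ v) : ℤ) - c then wwt u * wwt v else 0)]
  refine Finset.sum_congr rfl fun p _ => ?_
  unfold cnt
  refine Finset.sum_congr rfl fun q hq => ?_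
  rw [Finset.mem_product] at hq
  unfold FWT at hq
  rw [Finset.mem_filter, Finset.mem_filter] at hq
  have e : (Wo (q.1 ++ q.2) : ℤ) = 2 ^ p.2 * (Wo q.1 : ℤ) + 3 ^ k₁ * (Wo q.2 : ℤ) := by
    rw [Wo_append, hq.2.2, (mem_FW.1 hq.1.1).1]
    push_cast
    ring
  rw [e]

theorem gam_rec (A k₁ k₂ j : ℕ) :
    gam A (k₁ + k₂) (k₁ + j) ≤ gam A k₁ (k₁ + j) * gam A k₂ j := by
  classical
  set R := range (k₁ * A + 1) ×ˢ range (k₂ * A + 1) with hR
  set G : ℕ × ℕ → ℝ := fun p => Gam (FWT A k₁ p.1) wwt (fun w => (Wo w : ℤ)) (k₁ + j)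
    * Gam (FWT A k₂ p.2) wwt (fun w => (Wo w : ℤ)) j with hG
  have hG0 : ∀ p, 0 ≤ G p := fun p => mul_nonneg
    (Gam_nonneg _ _ fun w _ => (wwt_pos w).le) (Gam_nonneg _ _ fun w _ => (wwt_pos w).le)
  have hT : ∀ T, Gam (FWT A (k₁ + k₂) T) wwt (fun w => (Wo w : ℤ)) (k₁ + j)
      ≤ ∑ p ∈ R.filter (fun p => p.1 + p.2 = T), G p := by
    intro T
    have h1 : Gam (FWT A (k₁ + k₂) T) wwt (fun w => (Wo w : ℤ)) (k₁ + j)
        ≤ ∑ p ∈ R.filter (fun p => p.1 + p.2 = T),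
          Gam (FWT A k₁ p.1 ×ˢ FWT A k₂ p.2) (fun q => wwt q.1 * wwt q.2)
            (fun q => 2 ^ p.2 * (Wo q.1 : ℤ) + 3 ^ k₁ * (Wo q.2 : ℤ)) (k₁ + j) := by
      unfold Gam
      rw [Finset.sum_comm]
      apply Finset.sum_le_sum
      intro c _
      unfold Fib
      rw [cnt_pairs, cnt_pairs, cnt_pairs]
      apply F3_sum <;>
      · intro p _
        apply cnt_nonneg
        intro q _
        exact mul_nonneg (wwt_pos _).le (wwt_pos _).le
    refine h1.trans (Finset.sum_le_sum fun p _ => ?_)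
    exact Gam_conv (fun w => (Wo w : ℤ)) (fun w => (Wo w : ℤ)) (fun w _ => (wwt_pos w).le)
      (fun w _ => (wwt_pos w).le) p.2 k₁ j
  have h2 : gam A (k₁ + k₂) (k₁ + j) ≤ ∑ p ∈ R, G p := by
    unfold gam
    refine (Finset.sum_le_sum fun T _ => hT T).trans (le_of_eq ?_)
    apply Finset.sum_fiberwise_of_maps_to
    intro p hp
    rw [hR, Finset.mem_product, mem_range, mem_range] at hp
    rw [mem_range, add_mul]
    omega
  refine h2.trans (le_of_eq ?_)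
  unfold gam
  rw [Finset.sum_mul_sum, hR, Finset.sum_product]

end Pool.Agent.H320R2.PD
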